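import Pool.Agent.ShghL.Spec
import Pool.Agent.ShghJ.Dc

/-!
# ShghL/DimF: dimension of the members without low monomials
-/

namespace ShghL

open MvPolynomial ShghJ

universe u v

namespace DimFAux

/-- The operator. -/
noncomputable def nab {K : Type u} [Field K] (D : Derivation ℤ K K)
    (f : MvPolynomial (Fin 2) K) : MvPolynomial (Fin 2) K := Dc D f + X 1 * pderiv 0 f

theorem degree_eq (e : Fin 2 →₀ ℕ) : e.degree = e 0 + e 1 := by
  rw [Finsupp.degree_eq_sum, Fin.sum_univ_two]

theorem ex_eta (e : Fin 2 →₀ ℕ) : ex (e 0) (e 1) = e := by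
  ext i
  fin_cases i <;> simp [ex]

theorem ex_degree (i j : ℕ) : (ex i j).degree = i + j := by
  rw [degree_eq]
  simp [ex]

theorem coeff_nab {K : Type u} [Field K] (D : Derivation ℤ K K) (f : MvPolynomial (Fin 2) K)
    (i j : ℕ) : (nab D f).coeff (ex i j) = D (f.coeff (ex i j)) +
      (if j = 0 then 0 else f.coeff (ex (i + 1) (j - 1)) * (i + 1)) := by
  classical
  unfold nab
  rw [coeff_add, coeff_Dc, coeff_X_mul']
  congr 1
  by_cases hj : j = 0
  · subst hj
    rw [if_neg, if_pos rfl]
    simp [ex]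
  · rw [if_pos, if_neg hj, coeff_pderiv]
    · congr 1
      · congr 1
        ext r
        fin_cases r <;> simp [ex]
      · simp [ex]
    · simp [ex, hj]

/-- The coefficients of a degree `m` of `nab D f` vanish if those of `f` do. -/
theorem nab_deg {K : Type u} [Field K] (D : Derivation ℤ K K) (f : MvPolynomial (Fin 2) K)
    (m : ℕ) (h : ∀ x : Fin 2 →₀ ℕ, x.degree = m → f.coeff x = 0) (x : Fin 2 →₀ ℕ)
    (hx : x.degree = m) : (nab D f).coeff x = 0 := by
  rw [← ex_eta x, coeff_nab, ex_eta, h x hx, map_zero, zero_add]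
  split_ifs with h1
  · rfl
  · rw [h, zero_mul]
    rw [ex_degree]
    rw [degree_eq] at hx
    omega

theorem shift_pderiv {K : Type u} [Field K] (a b : K) (f : MvPolynomial (Fin 2) K) :
    ShghE.tfShift a b (pderiv 0 f) = pderiv 0 (ShghE.tfShift a b f) := by
  induction f using MvPolynomial.induction_on with
  | C c => rw [pderiv_C, map_zero, ShghE.tfShift_C, pderiv_C]
  | add f g hf hg => rw [map_add, map_add, hf, hg, map_add, map_add]
  | mul_X f i hf =>
    rw [pderiv_mul, map_add, map_mul, map_mul, hf, map_mul, pderiv_mul]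
    congr 2
    fin_cases i
    · simp only [Fin.zero_eta, Fin.isValue]
      rw [ShghE.tfShift_X0, map_add, pderiv_X_self, pderiv_C, map_one, add_zero]
    · simp only [Fin.mk_one, Fin.isValue]
      rw [ShghE.tfShift_X1, map_add, pderiv_X_of_ne (by decide), pderiv_C, map_zero, add_zero]

theorem shift_nab {K : Type u} [Field K] (D : Derivation ℤ K K) (a b : K) (ha : D a = b)
    (hb : D b = 0) (f : MvPolynomial (Fin 2) K) :
    ShghE.tfShift a b (nab D f) = nab D (ShghE.tfShift a b f) := by
  unfold nab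
  rw [map_add, map_mul, shift_pderiv, ShghE.tfShift_X1, tDc K D a b f, ha, hb, C_0]
  ring

/-- The operator preserves the linear system. -/
theorem nab_mem {K : Type u} [Field K] (D : Derivation ℤ K K) {s d : ℕ} {μ : Fin s → ℕ}
    {a : Fin s → Fin 2 → K} (h0 : ∀ i, D (a i 0) = a i 1) (h1 : ∀ i, D (a i 1) = 0)
    {f : MvPolynomial (Fin 2) K} (hf : f ∈ ShghT.LS d μ a) : nab D f ∈ ShghT.LS d μ a := by
  rw [ShghT.mem_LS] at hf ⊢
  refine ⟨?_, fun i => ?_⟩
  · rw [ShghE.tf_totalDegree_le]
    intro e he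
    by_contra hcon
    rw [mem_support_iff] at he
    refine he (nab_deg D f e.degree (fun x hx => ?_) e rfl)
    by_contra hx0
    have := ShghE.tf_totalDegree_le.1 hf.1 x (mem_support_iff.2 hx0)
    omega
  · have h2 := (ShghE.tf_mem_iff _ _ _ _).1 (hf.2 i)
    refine (ShghE.tf_mem_iff _ _ _ _).2 fun x hx => ?_
    rw [shift_nab D _ _ (h0 i) (h1 i)]
    exact nab_deg D _ x.degree (fun y hy => h2 y (by omega)) x rfl

open Classical in
theorem functional {K : Type u} [Field K] {M : Type v} [AddCommGroup M] [Module K M]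
    (A : Submodule K M) [Module.Finite K A] (φ : M →ₗ[K] K) :
    Module.finrank K A = Module.finrank K (A ⊓ LinearMap.ker φ : Submodule K M) +
      (if ∃ f ∈ A, φ f ≠ 0 then 1 else 0) := by
  have h1 := LinearMap.finrank_range_add_finrank_ker (φ.domRestrict A)
  have h2 : Module.finrank K (LinearMap.ker (φ.domRestrict A)) =
      Module.finrank K (A ⊓ LinearMap.ker φ : Submodule K M) := by
    have h3 : (LinearMap.ker (φ.domRestrict A)).map A.subtype = A ⊓ LinearMap.ker φ := by
      ext f
      simp only [Submodule.mem_map, LinearMap.mem_ker, LinearMap.domRestrict_apply,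
        Submodule.subtype_apply, Submodule.mem_inf]
      constructor
      · rintro ⟨g, hg, rfl⟩
        exact ⟨g.2, hg⟩
      · rintro ⟨hf1, hf2⟩
        exact ⟨⟨f, hf1⟩, hf2, rfl⟩
    rw [← h3]
    exact (Submodule.equivMapOfInjective _ A.injective_subtype _).finrank_eq
  have h4 : Module.finrank K (LinearMap.range (φ.domRestrict A)) =
      (if ∃ f ∈ A, φ f ≠ 0 then 1 else 0) := by
    split_ifs with h
    · obtain ⟨f, hf, hf0⟩ := h
      have h5 : LinearMap.range (φ.domRestrict A) = ⊤ := by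
        rw [LinearMap.range_eq_top]
        intro c
        refine ⟨(c * (φ f)⁻¹) • ⟨f, hf⟩, ?_⟩
        rw [map_smul, LinearMap.domRestrict_apply, smul_eq_mul, mul_assoc,
          inv_mul_cancel₀ hf0, mul_one]
      rw [h5, finrank_top, Module.finrank_self]
    · push Not at h
      have h5 : φ.domRestrict A = 0 := by
        ext f
        exact h f f.2
      rw [h5, LinearMap.range_zero, finrank_bot]
  omega

variable {K : Type u} [Field K]

theorem mem_FF {V : Submodule K (MvPolynomial (Fin 2) K)} {κ ρ : ℕ} {f : MvPolynomial (Fin 2) K} :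
    f ∈ FF V κ ρ ↔ f ∈ V ∧ (∀ i j, i + j < κ → f.coeff (ex i j) = 0) ∧
      ∀ i j, i + j = κ → i < ρ → f.coeff (ex i j) = 0 := Iff.rfl

theorem FF_step (V : Submodule K (MvPolynomial (Fin 2) K)) {κ t : ℕ} (ht : t ≤ κ) :
    FF V κ (t + 1) = FF V κ t ⊓ LinearMap.ker (lcoeff K (ex t (κ - t))) := by
  ext f
  rw [Submodule.mem_inf, mem_FF, mem_FF, LinearMap.mem_ker, lcoeff_apply]
  constructor
  · rintro ⟨h1, h2, h3⟩
    exact ⟨⟨h1, h2, fun i j h4 h5 => h3 i j h4 (by omega)⟩, h3 _ _ (by omega) (by omega)⟩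
  · rintro ⟨⟨h1, h2, h3⟩, h4⟩
    refine ⟨h1, h2, fun i j h5 h6 => ?_⟩
    rcases Nat.lt_or_ge i t with h7 | h7
    · exact h3 i j h5 h7
    · have h8 : i = t := by omega
      have h9 : j = κ - t := by omega
      rw [h8, h9]
      exact h4

theorem FF_top (V : Submodule K (MvPolynomial (Fin 2) K)) {κ t : ℕ} (ht : κ < t) :
    FF V κ t = FF V (κ + 1) 0 := by
  ext f
  rw [mem_FF, mem_FF]
  constructor
  · rintro ⟨h1, h2, h3⟩
    refine ⟨h1, fun i j h4 => ?_, fun i j _ h5 => absurd h5 (Nat.not_lt_zero i)⟩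
    rcases Nat.lt_or_ge (i + j) κ with h5 | h5
    · exact h2 i j h5
    · exact h3 i j (by omega) (by omega)
  · rintro ⟨h1, h2, -⟩
    exact ⟨h1, fun i j h4 => h2 i j (by omega), fun i j h4 _ => h2 i j (by omega)⟩

/-- The order `t` is taken. -/
def Ep (V : Submodule K (MvPolynomial (Fin 2) K)) (κ t : ℕ) : Prop :=
  t ≤ κ ∧ ∃ f ∈ FF V κ t, f.coeff (ex t (κ - t)) ≠ 0

theorem Ep_pred (D : Derivation ℤ K K) {s d κ t : ℕ} {μ : Fin s → ℕ}
    {a : Fin s → Fin 2 → K} (h0 : ∀ i, D (a i 0) = a i 1) (h1 : ∀ i, D (a i 1) = 0)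
    (hK : ∀ n : ℕ, 1 ≤ n → n ≤ κ → (n : K) ≠ 0) (h : Ep (ShghT.LS d μ a) κ (t + 1)) :
    Ep (ShghT.LS d μ a) κ t := by
  obtain ⟨ht, f, hf, hf0⟩ := h
  rw [mem_FF] at hf
  obtain ⟨hfV, hf1, hf2⟩ := hf
  refine ⟨by omega, nab D f, ?_, ?_⟩
  · rw [mem_FF]
    refine ⟨nab_mem D h0 h1 hfV, fun i j hij => ?_, fun i j hij hi => ?_⟩
    · rw [coeff_nab, hf1 i j hij, map_zero, zero_add]
      split_ifs with hj
      · rfl
      · rw [hf1 _ _ (by omega), zero_mul]
    · rw [coeff_nab, hf2 i j hij (by omega), map_zero, zero_add]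
      split_ifs with hj
      · rfl
      · rw [hf2 _ _ (by omega) (by omega), zero_mul]
  · rw [coeff_nab, hf2 t (κ - t) (by omega) (by omega), map_zero, zero_add,
      if_neg (by omega), show κ - t - 1 = κ - (t + 1) by omega]
    refine mul_ne_zero hf0 ?_
    have := hK (t + 1) (by omega) ht
    push_cast at this
    exact this

end DimFAux

open DimFAux in
theorem tDimF : S_DimF.{u} := by
  classical
  intro K _ D s d κ ρ μ a h0 h1 hK
  set V := ShghT.LS d μ a with hV
  have hfin : ∀ t, Module.Finite K (FF V κ t) := by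
    intro t
    have hle : FF V κ t ≤ V := fun f hf => hf.1
    exact Submodule.finiteDimensional_of_le hle
  have hstep : ∀ t ≤ κ, Module.finrank K (FF V κ t) = Module.finrank K (FF V κ (t + 1)) +
      (if Ep V κ t then 1 else 0) := by
    intro t ht
    have := hfin t
    rw [functional (FF V κ t) (lcoeff K (ex t (κ - t))), ← FF_step V ht]
    congr 1
    have h2 : (∃ f ∈ FF V κ t, lcoeff K (ex t (κ - t)) f ≠ 0) ↔ Ep V κ t :=
      ⟨fun h => ⟨ht, h⟩, fun h => h.2⟩
    by_cases h3 : Ep V κ t
    · rw [if_pos h3, if_pos (h2.2 h3)]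
    · rw [if_neg h3, if_neg fun h => h3 (h2.1 h)]
  have hdown : ∀ t j, Ep V κ (t + j) → Ep V κ t := by
    intro t j
    induction j with
    | zero => exact fun h => h
    | succ j ih => exact fun h => ih (Ep_pred D h0 h1 hK h)
  by_cases hρ : Ep V κ ρ
  · right
    have key : ∀ t ≤ ρ, Module.finrank K (FF V κ t) + t = Module.finrank K (FF V κ 0) := by
      intro t
      induction t with
      | zero => intro _; rfl
      | succ t ih =>
        intro ht
        have h2 : Ep V κ t := hdown t (ρ - t) (by rwa [show t + (ρ - t) = ρ by omega])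
        have h3 := hstep t h2.1
        rw [if_pos h2] at h3
        have h4 := ih (by omega)
        omega
    exact (key ρ le_rfl).le
  · left
    rcases Nat.lt_or_ge κ ρ with h2 | h2
    · rw [FF_top V h2]
    · have key : ∀ j, ρ + j ≤ κ + 1 →
          Module.finrank K (FF V κ ρ) = Module.finrank K (FF V κ (ρ + j)) := by
        intro j
        induction j with
        | zero => intro _; rfl
        | succ j ih =>
          intro hj
          have h3 : ¬ Ep V κ (ρ + j) := fun h => hρ (hdown ρ j h)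
          have h4 := hstep (ρ + j) (by omega)
          rw [if_neg h3] at h4
          rw [ih (by omega), h4]
          rfl
      have h3 := key (κ + 1 - ρ) (by omega)
      rw [show ρ + (κ + 1 - ρ) = κ + 1 by omega, FF_top V (Nat.lt_succ_self κ)] at h3
      exact h3.le

end ShghL
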