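import Pool.Agent.ShghL.Spec
import Pool.Agent.ShghL.DimF
import Pool.Agent.ShghJ.Dc

/-!
# ShghL/DimP: dimension of the plane part
-/

namespace ShghL

open MvPolynomial ShghJ

universe u v

namespace DimPAux

open DimFAux (degree_eq ex_eta ex_degree functional)

/-- The operator. -/
noncomputable def nab {K : Type u} [Field K] (D : Derivation ℤ K K)
    (f : MvPolynomial (Fin 2) K) : MvPolynomial (Fin 2) K := Dc D f + X 0 * pderiv 1 f

theorem coeff_nab {K : Type u} [Field K] (D : Derivation ℤ K K) (f : MvPolynomial (Fin 2) K)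
    (i j : ℕ) : (nab D f).coeff (ex i j) = D (f.coeff (ex i j)) +
      (if i = 0 then 0 else f.coeff (ex (i - 1) (j + 1)) * (j + 1)) := by
  classical
  unfold nab
  rw [coeff_add, coeff_Dc, coeff_X_mul']
  congr 1
  by_cases hi : i = 0
  · subst hi
    rw [if_neg, if_pos rfl]
    simp [ex]
  · rw [if_pos, if_neg hi, coeff_pderiv]
    · congr 1
      · congr 1
        ext r
        fin_cases r <;> simp [ex]
      · simp [ex]
    · simp [ex, hi]

/-- The coefficients of a degree `m` of `nab D f` vanish if those of `f` do. -/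
theorem nab_deg {K : Type u} [Field K] (D : Derivation ℤ K K) (f : MvPolynomial (Fin 2) K)
    (m : ℕ) (h : ∀ x : Fin 2 →₀ ℕ, x.degree = m → f.coeff x = 0) (x : Fin 2 →₀ ℕ)
    (hx : x.degree = m) : (nab D f).coeff x = 0 := by
  rw [← ex_eta x, coeff_nab, ex_eta, h x hx, map_zero, zero_add]
  split_ifs with h1
  · rfl
  · rw [h, zero_mul]
    rw [ex_degree]
    rw [degree_eq] at hx
    omega

theorem shift_pderiv {K : Type u} [Field K] (a b : K) (f : MvPolynomial (Fin 2) K) :
    ShghE.tfShift a b (pderiv 1 f) = pderiv 1 (ShghE.tfShift a b f) := by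
  induction f using MvPolynomial.induction_on with
  | C c => rw [pderiv_C, map_zero, ShghE.tfShift_C, pderiv_C]
  | add f g hf hg => rw [map_add, map_add, hf, hg, map_add, map_add]
  | mul_X f i hf =>
    rw [pderiv_mul, map_add, map_mul, map_mul, hf, map_mul, pderiv_mul]
    congr 2
    fin_cases i
    · simp only [Fin.zero_eta, Fin.isValue]
      rw [ShghE.tfShift_X0, map_add, pderiv_X_of_ne (by decide), pderiv_C, map_zero, add_zero]
    · simp only [Fin.mk_one, Fin.isValue]
      rw [ShghE.tfShift_X1, map_add, pderiv_X_self, pderiv_C, map_one, add_zero]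

theorem shift_nab {K : Type u} [Field K] (D : Derivation ℤ K K) (a b : K) (ha : D a = 0)
    (hb : D b = a) (f : MvPolynomial (Fin 2) K) :
    ShghE.tfShift a b (nab D f) = nab D (ShghE.tfShift a b f) := by
  unfold nab
  rw [map_add, map_mul, shift_pderiv, ShghE.tfShift_X0, tDc K D a b f, ha, hb, C_0]
  ring

/-- The operator preserves the linear system. -/
theorem nab_mem {K : Type u} [Field K] (D : Derivation ℤ K K) {s d : ℕ} {μ : Fin s → ℕ}
    {a : Fin s → Fin 2 → K} (h0 : ∀ i, D (a i 0) = 0) (h1 : ∀ i, D (a i 1) = a i 0)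
    {f : MvPolynomial (Fin 2) K} (hf : f ∈ ShghT.LS d μ a) : nab D f ∈ ShghT.LS d μ a := by
  rw [ShghT.mem_LS] at hf ⊢
  refine ⟨?_, fun i => ?_⟩
  · rw [ShghE.tf_totalDegree_le]
    intro e he
    by_contra hcon
    rw [mem_support_iff] at he
    refine he (nab_deg D f e.degree (fun x hx => ?_) e rfl)
    by_contra hx0
    have := ShghE.tf_totalDegree_le.1 hf.1 x (mem_support_iff.2 hx0)
    omega
  · have h2 := (ShghE.tf_mem_iff _ _ _ _).1 (hf.2 i)
    refine (ShghE.tf_mem_iff _ _ _ _).2 fun x hx => ?_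
    rw [shift_nab D _ _ (h0 i) (h1 i)]
    exact nab_deg D _ x.degree (fun y hy => h2 y (by omega)) x rfl

variable {K : Type u} [Field K]

theorem mem_PP {s κ ρ : ℕ} {μ : Fin s → ℕ} {q : Fin s → Fin 2 → K} {f : MvPolynomial (Fin 2) K} :
    f ∈ PP κ ρ μ q ↔ f ∈ ShghT.LS κ μ q ∧
      ∀ i j, i + j = κ → ρ ≤ i → f.coeff (ex i j) = 0 := Iff.rfl

theorem PP_step {s κ t : ℕ} (μ : Fin s → ℕ) (q : Fin s → Fin 2 → K) (ht : t ≤ κ) :
    PP κ t μ q = PP κ (t + 1) μ q ⊓ LinearMap.ker (lcoeff K (ex t (κ - t))) := by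
  ext f
  rw [Submodule.mem_inf, mem_PP, mem_PP, LinearMap.mem_ker, lcoeff_apply]
  constructor
  · rintro ⟨h1, h3⟩
    exact ⟨⟨h1, fun i j h4 h5 => h3 i j h4 (by omega)⟩, h3 _ _ (by omega) (by omega)⟩
  · rintro ⟨⟨h1, h3⟩, h4⟩
    refine ⟨h1, fun i j h5 h6 => ?_⟩
    rcases Nat.lt_or_ge t i with h7 | h7
    · exact h3 i j h5 h7
    · have h8 : i = t := by omega
      have h9 : j = κ - t := by omega
      rw [h8, h9]
      exact h4

theorem PP_top {s κ : ℕ} (μ : Fin s → ℕ) (q : Fin s → Fin 2 → K) :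
    PP κ (κ + 1) μ q = ShghT.LS κ μ q := by
  ext f
  rw [mem_PP]
  exact ⟨fun h => h.1, fun h => ⟨h, fun i j h4 h5 => by omega⟩⟩

theorem PP_bot {s κ : ℕ} (μ : Fin s → ℕ) (q : Fin s → Fin 2 → K) (hκ : 1 ≤ κ) :
    PP κ 0 μ q = ShghT.LS (κ - 1) μ q := by
  ext f
  rw [mem_PP, ShghT.mem_LS, ShghT.mem_LS]
  constructor
  · rintro ⟨⟨h1, h2⟩, h3⟩
    refine ⟨?_, h2⟩
    rw [ShghE.tf_totalDegree_le] at h1 ⊢
    intro e he
    have h4 := h1 e he
    by_contra hcon
    rw [mem_support_iff, ← ex_eta e] at he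
    have h5 : e.degree = κ := by omega
    rw [degree_eq] at h5
    exact he (h3 _ _ h5 (Nat.zero_le _))
  · rintro ⟨h1, h2⟩
    rw [ShghE.tf_totalDegree_le] at h1
    refine ⟨⟨?_, h2⟩, fun i j hij _ => ?_⟩
    · rw [ShghE.tf_totalDegree_le]
      intro e he
      have := h1 e he
      omega
    · by_contra hcon
      have := h1 (ex i j) (mem_support_iff.2 hcon)
      rw [ex_degree] at this
      omega

/-- The order `t` is taken. -/
def Ep {s : ℕ} (μ : Fin s → ℕ) (q : Fin s → Fin 2 → K) (κ t : ℕ) : Prop :=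
  t ≤ κ ∧ ∃ f ∈ PP κ (t + 1) μ q, f.coeff (ex t (κ - t)) ≠ 0

theorem Ep_succ (D : Derivation ℤ K K) {s κ t : ℕ} {μ : Fin s → ℕ}
    {q : Fin s → Fin 2 → K} (h0 : ∀ i, D (q i 0) = 0) (h1 : ∀ i, D (q i 1) = q i 0)
    (hK : ∀ n : ℕ, 1 ≤ n → n ≤ κ → (n : K) ≠ 0) (ht1 : t + 1 ≤ κ) (h : Ep μ q κ t) :
    Ep μ q κ (t + 1) := by
  obtain ⟨ht, f, hf, hf0⟩ := h
  rw [mem_PP] at hf
  obtain ⟨hfV, hf2⟩ := hf
  refine ⟨ht1, nab D f, ?_, ?_⟩
  · rw [mem_PP]
    refine ⟨nab_mem D h0 h1 hfV, fun i j hij hi => ?_⟩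
    rw [coeff_nab, hf2 i j hij (by omega), map_zero, zero_add]
    split_ifs with hj
    · rfl
    · rw [hf2 _ _ (by omega) (by omega), zero_mul]
  · rw [coeff_nab, hf2 (t + 1) (κ - (t + 1)) (by omega) (by omega), map_zero, zero_add,
      if_neg (by omega), show κ - (t + 1) + 1 = κ - t by omega, Nat.add_sub_cancel]
    refine mul_ne_zero hf0 ?_
    have := hK (κ - (t + 1) + 1) (by omega) (by omega)
    push_cast at this
    exact this

end DimPAux

open DimPAux in
theorem tDimP : S_DimP.{u} := by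
  classical
  intro K _ D s κ ρ μ q h0 h1 hK hκ hρκ
  have hfin : ∀ t, Module.Finite K (PP κ t μ q) := by
    intro t
    have hle : PP κ t μ q ≤ ShghT.LS κ μ q := fun f hf => hf.1
    exact Submodule.finiteDimensional_of_le hle
  have hstep : ∀ t ≤ κ, Module.finrank K (PP κ (t + 1) μ q) = Module.finrank K (PP κ t μ q) +
      (if Ep μ q κ t then 1 else 0) := by
    intro t ht
    have := hfin (t + 1)
    rw [DimFAux.functional (PP κ (t + 1) μ q) (lcoeff K (ex t (κ - t))), ← PP_step μ q ht]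
    congr 1
    have h2 : (∃ f ∈ PP κ (t + 1) μ q, lcoeff K (ex t (κ - t)) f ≠ 0) ↔ Ep μ q κ t :=
      ⟨fun h => ⟨ht, h⟩, fun h => h.2⟩
    by_cases h3 : Ep μ q κ t
    · rw [if_pos h3, if_pos (h2.2 h3)]
    · rw [if_neg h3, if_neg fun h => h3 (h2.1 h)]
  have hup : ∀ t j, t + j ≤ κ → Ep μ q κ t → Ep μ q κ (t + j) := by
    intro t j
    induction j with
    | zero => exact fun _ h => h
    | succ j ih => exact fun hj h => Ep_succ D h0 h1 hK hj (ih (by omega) h)
  rcases Nat.eq_zero_or_pos ρ with rfl | hρ0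
  · left
    rw [PP_bot μ q hκ]
  obtain ⟨r, rfl⟩ : ∃ r, ρ = r + 1 := ⟨ρ - 1, by omega⟩
  by_cases hr : Ep μ q κ r
  · right
    have key : ∀ j, r + 1 + j ≤ κ + 1 →
        Module.finrank K (PP κ (r + 1) μ q) + j = Module.finrank K (PP κ (r + 1 + j) μ q) := by
      intro j
      induction j with
      | zero => intro _; rfl
      | succ j ih =>
        intro hj
        have h2 : Ep μ q κ (r + (1 + j)) := hup r (1 + j) (by omega) hr
        rw [show r + (1 + j) = r + 1 + j by omega] at h2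
        have h3 := hstep (r + 1 + j) h2.1
        rw [if_pos h2] at h3
        have h4 := ih (by omega)
        rw [show r + 1 + (j + 1) = r + 1 + j + 1 by omega]
        omega
    have h2 := key (κ + 1 - (r + 1)) (by omega)
    rw [show r + 1 + (κ + 1 - (r + 1)) = κ + 1 by omega, PP_top μ q] at h2
    omega
  · left
    have key : ∀ t ≤ r + 1, Module.finrank K (PP κ t μ q) = Module.finrank K (PP κ 0 μ q) := by
      intro t
      induction t with
      | zero => intro _; rfl
      | succ t ih =>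
        intro ht
        have h3 : ¬ Ep μ q κ t := fun h => hr (by
          have := hup t (r - t) (by omega) h
          rwa [show t + (r - t) = r by omega] at this)
        rw [hstep t (by omega), if_neg h3, add_zero]
        exact ih (by omega)
    rw [key (r + 1) le_rfl, PP_bot μ q hκ]

end ShghL
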