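import Pool.Agent.ShghL.Spec

/-!
# ShghL, Tr: translation of the point to the origin
-/

namespace ShghL

open MvPolynomial ShghJ

universe u v

private theorem tr_shift_degree {A : Type*} [CommRing A] (a b : A) (f : MvPolynomial (Fin 2) A) :
    (ShghE.tfShift a b f).totalDegree ≤ f.totalDegree := by
  have hX : ∀ i : Fin 2, ((![X 0 + C a, X 1 + C b] : Fin 2 → MvPolynomial (Fin 2) A) i).totalDegree
      ≤ 1 := by
    intro i
    have h : ∀ (j : Fin 2) (c : A), (X j + C c : MvPolynomial (Fin 2) A).totalDegree ≤ 1 := by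
      intro j c
      refine (totalDegree_add _ _).trans (max_le ?_ ?_)
      · rw [X]
        refine (totalDegree_monomial_le _ _).trans ?_
        simp
      · rw [totalDegree_C]
        exact Nat.zero_le _
    fin_cases i
    · exact h 0 a
    · exact h 1 b
  unfold ShghE.tfShift
  rw [aeval_def, eval₂_eq']
  refine totalDegree_finsetSum_le fun e he => ?_
  refine (totalDegree_mul _ _).trans ?_
  have h1 : ((algebraMap A (MvPolynomial (Fin 2) A)) (coeff e f)).totalDegree = 0 := totalDegree_C _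
  rw [h1, zero_add]
  refine (totalDegree_finsetProd _ _).trans ?_
  refine le_trans (Finset.sum_le_sum fun i _ => (totalDegree_pow _ _).trans
    (Nat.mul_le_mul_left _ (hX i))) ?_
  simp only [mul_one]
  have h2 := le_totalDegree he
  rwa [Finsupp.sum_fintype _ _ (fun _ => rfl)] at h2

private theorem tr_comp {A : Type*} [CommRing A] (a b c d : A) (f : MvPolynomial (Fin 2) A) :
    ShghE.tfShift a b (ShghE.tfShift c d f) = ShghE.tfShift (a + c) (b + d) f := by
  have h : (ShghE.tfShift a b).comp (ShghE.tfShift c d) = ShghE.tfShift (a + c) (b + d) := by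
    apply MvPolynomial.algHom_ext
    intro i
    fin_cases i
    · change ShghE.tfShift a b (ShghE.tfShift c d (X 0)) = ShghE.tfShift (a + c) (b + d) (X 0)
      rw [ShghE.tfShift_X0, map_add, ShghE.tfShift_X0, ShghE.tfShift_C, ShghE.tfShift_X0, C_add]
      ring
    · change ShghE.tfShift a b (ShghE.tfShift c d (X 1)) = ShghE.tfShift (a + c) (b + d) (X 1)
      rw [ShghE.tfShift_X1, map_add, ShghE.tfShift_X1, ShghE.tfShift_C, ShghE.tfShift_X1, C_add]
      ring
  exact DFunLike.congr_fun h f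

private theorem tr_ex (e : Fin 2 →₀ ℕ) : ex (e 0) (e 1) = e := by
  ext i
  fin_cases i <;> simp [ex]

private theorem tr_ex_degree (i j : ℕ) : (ex i j).degree = i + j := by
  rw [Finsupp.degree_eq_sum, Fin.sum_univ_two]
  simp [ex]

private theorem tr_key {K : Type u} [Field K] (s d j : ℕ) (μ : Fin s → ℕ)
    (P : Fin s → Fin 2 → K) (p : Fin 2 → K) (f : MvPolynomial (Fin 2) K) :
    f ∈ fil (ShghT.LS d μ P) p j ↔
      ShghE.tfShift (p 0) (p 1) f ∈ FF (ShghT.LS d μ (fun i c => P i c - p c)) j 0 := by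
  have hm : ∀ (a b : K) (m : ℕ) (g : MvPolynomial (Fin 2) K), g ∈ ShghT.pt a b ^ m ↔
      ∀ x : Fin 2 →₀ ℕ, x.degree < m → (ShghE.tfShift a b g).coeff x = 0 :=
    fun a b m g => ShghE.tf_mem_iff a b m g
  have hc : ∀ i, ShghE.tfShift (P i 0 - p 0) (P i 1 - p 1) (ShghE.tfShift (p 0) (p 1) f) =
      ShghE.tfShift (P i 0) (P i 1) f := by
    intro i
    rw [tr_comp, sub_add_cancel, sub_add_cancel]
  constructor
  · rintro ⟨⟨h1, h2⟩, h3⟩
    refine ⟨⟨(tr_shift_degree _ _ _).trans h1, fun i => ?_⟩, fun i j' hij => ?_,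
      fun i j' _ h => absurd h (Nat.not_lt_zero _)⟩
    · rw [hm, hc]
      exact (hm _ _ _ _).1 (h2 i)
    · exact (hm _ _ _ _).1 h3 _ (by rw [tr_ex_degree]; exact hij)
  · rintro ⟨⟨h1, h2⟩, h3, -⟩
    refine ⟨⟨?_, fun i => ?_⟩, ?_⟩
    · have h4 := tr_shift_degree (-(p 0)) (-(p 1)) (ShghE.tfShift (p 0) (p 1) f)
      rw [ShghE.tfShift_neg] at h4
      exact h4.trans h1
    · rw [hm, ← hc]
      exact (hm _ _ _ _).1 (h2 i)
    · rw [hm]
      intro x hx
      have h4 := h3 (x 0) (x 1) (by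
        rw [← tr_ex x, tr_ex_degree] at hx
        exact hx)
      rwa [tr_ex] at h4

theorem tTr : S_Tr.{u} := by
  intro K _ s d j μ P p
  have hinv : ∀ f : MvPolynomial (Fin 2) K,
      ShghE.tfShift (p 0) (p 1) (ShghE.tfShift (-(p 0)) (-(p 1)) f) = f := by
    intro f
    rw [tr_comp, add_neg_cancel, add_neg_cancel]
    have h := ShghE.tfShift_neg (0 : K) 0 f
    rw [neg_zero, tr_comp, add_zero] at h
    exact h
  let E : MvPolynomial (Fin 2) K ≃ₗ[K] MvPolynomial (Fin 2) K :=
    LinearEquiv.ofLinearMap (ShghE.tfShift (p 0) (p 1)).toLinearMap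
      (ShghE.tfShift (-(p 0)) (-(p 1))).toLinearMap (LinearMap.ext hinv)
      (LinearMap.ext (ShghE.tfShift_neg (p 0) (p 1)))
  have hmap : (fil (ShghT.LS d μ P) p j).map (E : MvPolynomial (Fin 2) K →ₗ[K] _) =
      FF (ShghT.LS d μ (fun i c => P i c - p c)) j 0 := by
    ext g
    rw [Submodule.mem_map]
    constructor
    · rintro ⟨f, hf, rfl⟩
      exact (tr_key s d j μ P p f).1 hf
    · intro hg
      refine ⟨ShghE.tfShift (-(p 0)) (-(p 1)) g, ?_, hinv g⟩
      rw [tr_key, hinv]
      exact hg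
  rw [← hmap]
  exact (E.submoduleMap _).finrank_eq

end ShghL
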