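import Pool.Agent.ShghL.Split
import Pool.Agent.ShghL.DimP
import Pool.Agent.ShghL.DimF
import Pool.Agent.ShghL.Tr
import Pool.Agent.ShghJ.GeoMain

/-!
# ShghL/CM: the inequality of the degeneration
-/

namespace ShghL

open MvPolynomial ShghJ

universe u v

theorem cm_der (K : Type u) [Field K] {n : ℕ} (u : Fin n → K) (D : Fin n → Derivation ℤ K K) :
    ∃ D' : Derivation ℤ K K, ∀ x, D' x = ∑ i, u i * D i x := by
  refine geo_mkDer K (fun x => ∑ i, u i * D i x) (fun a b => ?_) fun a b => ?_
  · rw [← Finset.sum_add_distrib]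
    refine Finset.sum_congr rfl fun i _ => ?_
    rw [map_add, mul_add]
  · rw [Finset.mul_sum, Finset.mul_sum, ← Finset.sum_add_distrib]
    refine Finset.sum_congr rfl fun i _ => ?_
    rw [(D i).leibniz, smul_eq_mul, smul_eq_mul]
    ring

theorem cm_append (A B : Multiset ℕ) : (Finset.univ.val.map
    (Fin.append (fun i : Fin A.toList.length => A.toList.get i)
      (fun i : Fin B.toList.length => B.toList.get i))) = A + B := by
  rw [Fin.univ_val_map, List.ofFn_fin_append, List.ofFn_get, List.ofFn_get, ← Multiset.coe_add,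
    Multiset.coe_toList, Multiset.coe_toList]

theorem cm_semi (F : Type u) (L : Type v) [Field F] [Field L] [Algebra F L] {s : ℕ} (d : ℕ)
    (μ : Fin s → ℕ) (P : Fin s → Fin 2 → L) :
    hF F d (Finset.univ.val.map μ) ≤ Module.finrank L (ShghT.LS d μ P) := by
  have hg : AlgebraicIndependent F (fun ij : Fin s × Fin 2 => up F ij.1 ij.2) :=
    geo_algInd F (fun i : Fin s => (i : ℕ)) Fin.val_injective
  have h := tInv F (UF F) s d μ (fun i => up F i) hg
  rw [← h]
  exact ShghT.finrank_LS_le (fun i : Fin s => up F i) hg P d μ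

theorem cm_semi' (F : Type u) (K : Type v) [Field F] [Field K] [Algebra F K] {s : ℕ} (d : ℕ)
    (μ : Fin s → ℕ) (P : Fin s → Fin 2 → RatFunc K) :
    hF F d (Finset.univ.val.map μ) ≤ Module.finrank (RatFunc K) (ShghT.LS d μ P) := by
  letI : Algebra F (RatFunc K) :=
    ((algebraMap K (RatFunc K)).comp (algebraMap F K)).toAlgebra
  exact cm_semi F (RatFunc K) d μ P

theorem tCM : S_CM.{u} := by
  classical
  intro F _ d κ A B hd h1κ hκd
  have hfun := hfun_hF F d hd
  have hdK : ∀ n : ℕ, 1 ≤ n → n ≤ κ → (n : UF F) ≠ 0 := by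
    intro n h1 h2 h3
    apply hd n h1 (h2.trans hκd)
    have h4 : algebraMap F (UF F) (n : F) = algebraMap F (UF F) 0 := by
      rw [map_natCast, map_zero, h3]
    exact (algebraMap F (UF F)).injective h4
  choose D₀ hD₀ using fun (i : ℕ) (c : Fin 2) => tDer F i c
  choose D hD' using fun (i : ℕ) (c : Fin 2) => geo_mkDer (UF F) (fun x => D₀ i c x)
    (fun a b => map_add (D₀ i c) a b) (fun a b => (D₀ i c).leibniz a b)
  have hD : ∀ (i : ℕ) (c : Fin 2) (i' : ℕ) (c' : Fin 2),
      D i c (up F i' c') = if i' = i ∧ c' = c then 1 else 0 := by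
    intro i c i' c'
    rw [hD', hD₀]
  set μ : Fin A.toList.length → ℕ := fun i => A.toList.get i with hμ
  set ν : Fin B.toList.length → ℕ := fun i => B.toList.get i with hν
  set a : Fin A.toList.length → Fin 2 → UF F := fun i c => up F (i + 1) c - up F 0 c with ha
  set q : Fin B.toList.length → Fin 2 → UF F := fun i => up F i with hq
  set ρ : ℕ := hF F d (κ ::ₘ A) - hF F d ((κ + 1) ::ₘ A) with hρ
  have hρ1 : ρ ≤ κ + 1 := by
    have := hfun.mac1 A κ
    omega
  have hρ2 : hF F d (κ ::ₘ A) = hF F d ((κ + 1) ::ₘ A) + ρ := by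
    have := hfun.anti A κ
    omega
  -- semicontinuity
  have hS : hF F d (A + B) ≤ Module.finrank (RatFunc (UF F)) (ShghT.LS d (Fin.append μ ν)
    (Fin.append (fun i c => RatFunc.C (a i c))
      (fun i c => RatFunc.X ^ (if c = 0 then 2 * (d + 2) else 2 * (d + 1)) *
        RatFunc.C (q i c)))) := by
    have h := cm_semi' F (UF F) d (Fin.append μ ν) (Fin.append (fun i c => RatFunc.C (a i c))
      (fun i c => RatFunc.X ^ (if c = 0 then 2 * (d + 2) else 2 * (d + 1)) *
        RatFunc.C (q i c)))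
    have e : (Finset.univ.val.map (Fin.append μ ν)) = A + B := cm_append A B
    rw [e] at h
    exact h
  have hSplit := tSplit (UF F) A.toList.length B.toList.length d κ ρ μ ν a q hκd hρ1
  -- the first part
  obtain ⟨D1, hD1⟩ := cm_der (UF F) (fun i : Fin B.toList.length => up F i 0)
    (fun i : Fin B.toList.length => D i 1)
  have hD10 : ∀ i, D1 (q i 0) = 0 := by
    intro i
    rw [hD1]
    refine Finset.sum_eq_zero fun j _ => ?_
    rw [hq]
    simp only
    rw [hD, if_neg, mul_zero]
    rintro ⟨-, h⟩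
    exact absurd h (by decide)
  have hD11 : ∀ i, D1 (q i 1) = q i 0 := by
    intro i
    rw [hD1, Finset.sum_eq_single i]
    · rw [hq]
      simp only
      rw [hD, if_pos ⟨rfl, rfl⟩, mul_one]
    · intro j _ hj
      rw [hq]
      simp only
      rw [hD, if_neg, mul_zero]
      rintro ⟨h, -⟩
      exact hj (Fin.ext h.symm)
    · intro h
      exact absurd (Finset.mem_univ _) h
  have hP := tDimP (UF F) D1 B.toList.length κ ρ ν q hD10 hD11 hdK h1κ hρ1
  -- the second part
  obtain ⟨D2, hD2⟩ := cm_der (UF F)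
    (fun i : Fin A.toList.length => up F (i + 1) 1 - up F 0 1)
    (fun i : Fin A.toList.length => D (i + 1) 0)
  have hD2' : ∀ (c : Fin 2), D2 (up F 0 c) = 0 := by
    intro c
    rw [hD2]
    refine Finset.sum_eq_zero fun j _ => ?_
    rw [hD, if_neg, mul_zero]
    rintro ⟨h, -⟩
    omega
  have hD20 : ∀ i, D2 (a i 0) = a i 1 := by
    intro i
    rw [ha]
    simp only
    rw [map_sub, hD2', sub_zero, hD2, Finset.sum_eq_single i]
    · rw [hD, if_pos ⟨rfl, rfl⟩, mul_one]
    · intro j _ hj
      rw [hD, if_neg, mul_zero]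
      rintro ⟨h, -⟩
      exact hj (Fin.ext (by omega))
    · intro h
      exact absurd (Finset.mem_univ _) h
  have hD21 : ∀ i, D2 (a i 1) = 0 := by
    intro i
    rw [ha]
    simp only
    rw [map_sub, hD2', sub_zero, hD2]
    refine Finset.sum_eq_zero fun j _ => ?_
    rw [hD, if_neg, mul_zero]
    rintro ⟨-, h⟩
    exact absurd h (by decide)
  have hTr : ∀ j, Module.finrank (UF F) (FF (ShghT.LS d μ a) j 0) = hF F d (j ::ₘ A) := by
    intro j
    rw [geo_hF_cons F d tInv]
    exact (tTr (UF F) A.toList.length d j μ (fun i => up F (i + 1)) (up F 0)).symm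
  have hFd := tDimF (UF F) D2 A.toList.length d κ ρ μ a hD20 hD21 hdK
  rw [hTr, hTr] at hFd
  have eP1 : Module.finrank (UF F) (ShghT.LS (κ - 1) ν q) = hF F (κ - 1) B := rfl
  have eP2 : Module.finrank (UF F) (ShghT.LS κ ν q) = hF F κ B := rfl
  rw [eP1, eP2] at hP
  omega

end ShghL
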