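import Pool.Agent.ShghL.CloseD2
import Pool.Agent.ShghL.CM
import Pool.Agent.ShghJ.GeoD

/-!
# ShghL/Main2: large degrees, sharp constants
-/

namespace ShghL

open MvPolynomial ShghJ

universe u v

theorem cmFun_hF' (F : Type u) [Field F] (d : ℕ) (hd : ∀ n : ℕ, 1 ≤ n → n ≤ d → (n : F) ≠ 0) :
    CMFun (hF F) d := fun d' κ A B hd' h1 h2 =>
  tCM F d' κ A B (fun n h3 h4 => hd n h3 (h4.trans hd')) h1 h2

/-- The dimension in large degrees. -/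
theorem hF_largeD (F : Type u) [Field F] (d : ℕ) (hd : ∀ n : ℕ, 1 ≤ n → n ≤ d → (n : F) ≠ 0)
    (M : ℕ) (K S : Multiset ℕ) (hM : 1 ≤ M) (hS : ∀ m ∈ S, m ≤ M)
    (hK : 2 * K.sum + 72 * M ^ 2 ≤ d) :
    hF F d (K + S) = T (d + 1) - TT (K + S) :=
  large_windowD (h := hF F) (fun d' hd' => hfunD_hF F d' fun n h1 h2 => hd n h1 (h2.trans hd'))
    (cmFun_hF' F d hd) M K S hM hS hK

/-- The dimension in large degrees, mixed form. -/
theorem hF_mixedD (F : Type u) [Field F] (d : ℕ) (hd : ∀ n : ℕ, 1 ≤ n → n ≤ d → (n : F) ≠ 0)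
    (K S : Multiset ℕ) (hK : 2 * K.sum ≤ d + 2)
    (hS : ∀ m ∈ S, 2 ≤ m → 1275 * (m : ℤ) ^ 2 ≤
      max (40 * |(T (d + 1) : ℤ) - TT (K + S)|) (2 * ((d : ℤ) - 2 * (K.sum : ℕ))) +
        5 * TT (S.filter (fun j => j < m))) :
    hF F d (K + S) = T (d + 1) - TT (K + S) := by
  refine large_mixedD (h := hF F)
    (fun d' hd' => hfunD_hF F d' fun n h1 h2 => hd n h1 (h2.trans hd'))
    (cmFun_hF' F d hd) K S hK fun m hm h2 => ?_
  have h3 := hS m hm h2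
  have h4 : (1275 : ℝ) * (m : ℝ) ^ 2 ≤
      max (40 * |(T (d + 1) : ℝ) - TT (K + S)|) (2 * ((d : ℝ) - 2 * (K.sum : ℕ))) +
        5 * TT (S.filter (fun j => j < m)) := by exact_mod_cast h3
  have h5 : max (40 * |(T (d + 1) : ℝ) - TT (K + S)|) (2 * ((d : ℝ) - 2 * (K.sum : ℕ))) =
      5 * max (8 * |(T (d + 1) : ℝ) - TT (K + S)|) (2 * ((d : ℝ) - 2 * (K.sum : ℕ)) / 5) := by
    rw [mul_max_of_nonneg _ _ (by norm_num : (0 : ℝ) ≤ 5)]
    congr 1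
    · ring
    · ring
  rw [h5] at h4
  linarith

end ShghL
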