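import Pool.Agent.ShghL.Spec
import Pool.Agent.ShghJ.CombK2

/-!
# ShghL/Close1: large degrees, window form
-/

namespace ShghL

open ShghJ

variable {h : ℕ → Multiset ℕ → ℕ} {d : ℕ}

/-- The closing step. -/
theorem close_core (H : HFun d (h d)) (C : CMFun h d) {κ : ℕ} (h1 : 1 ≤ κ) (h2 : κ ≤ d)
    {A B : Multiset ℕ} (hB : h κ B + TT B = T (κ + 1)) (hB' : h (κ - 1) B = 0)
    (hA : h d (κ ::ₘ A) + (T κ + TT A) = T (d + 1)) (hA' : h d ((κ + 1) ::ₘ A) = 0) :
    h d (A + B) = T (d + 1) - TT (A + B) := by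
  have h3 := H.chi_le (A + B)
  have h4 := T_succ κ
  have h5 := TT_add A B
  rcases C d κ A B le_rfl h1 h2 with h6 | h6
  · omega
  · omega

theorem T_mono {i j : ℕ} (hij : i ≤ j) : T i ≤ T j := by
  unfold T
  exact Nat.div_le_div_right (Nat.mul_le_mul hij (by omega))

theorem T_add_le (i j : ℕ) : T i + T j ≤ T (i + j) := by
  have h1 := two_T i
  have h2 := two_T j
  have h3 := two_T (i + j)
  nlinarith [Nat.zero_le (i * j)]

theorem TT_le_T_sum (K : Multiset ℕ) : TT K ≤ T K.sum := by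
  induction K using Multiset.induction_on with
  | empty => simp [TT_zero]
  | cons a K ih =>
    rw [TT_cons, Multiset.sum_cons]
    exact (Nat.add_le_add_left ih _).trans (T_add_le _ _)

theorem T_le_sq (m : ℕ) : T m ≤ m ^ 2 := by
  have h1 := two_T m
  rcases Nat.eq_zero_or_pos m with h | h
  · subst h
    simp [T]
  · nlinarith

/-- A part with mass in a given window. -/
theorem exists_part (τ t : ℕ) (S : Multiset ℕ) (hS : ∀ m ∈ S, T m ≤ τ) (ht : t ≤ TT S) :
    ∃ A B : Multiset ℕ, S = A + B ∧ TT B ≤ t ∧ t ≤ TT B + τ := by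
  induction S using Multiset.induction_on with
  | empty =>
    refine ⟨0, 0, by simp, ?_, ?_⟩
    · rw [TT_zero]; omega
    · rw [TT_zero] at ht ⊢; omega
  | cons a S ih =>
    by_cases h1 : t ≤ TT S
    · obtain ⟨A, B, h2, h3, h4⟩ := ih (fun m hm => hS m (Multiset.mem_cons_of_mem hm)) h1
      exact ⟨a ::ₘ A, B, by rw [h2, Multiset.cons_add], h3, h4⟩
    · refine ⟨{a}, S, by rw [Multiset.singleton_add], by omega, ?_⟩
      rw [TT_cons] at ht
      have := hS a (Multiset.mem_cons_self a S)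
      omega

/-- LARGE DEGREES: no window if `2 ΣK + 135 M² ≤ d`. -/
theorem large_window (H : ∀ d' ≤ d, HFunC d' (h d')) (C : CMFun h d) (M : ℕ) (K S : Multiset ℕ)
    (hM : 1 ≤ M) (hS : ∀ m ∈ S, m ≤ M) (hd : 2 * K.sum + 135 * M ^ 2 ≤ d) :
    h d (K + S) = T (d + 1) - TT (K + S) := by
  have hM2 : 1 ≤ M ^ 2 := Nat.one_le_pow _ _ hM
  set w := M ^ 2 with hw
  by_cases hχ : 16 * (M : ℤ) ^ 2 ≤ |(T (d + 1) : ℤ) - TT (K + S)|
  · exact winBase d (h d) (H d le_rfl) M K S (by omega) hS hχ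
  have hχ' : |(T (d + 1) : ℤ) - TT (K + S)| < 16 * (w : ℤ) := by
    rw [hw]; push_cast; omega
  rw [abs_lt] at hχ'
  obtain ⟨n, hn⟩ : ∃ n, n = (d + 2) / 2 - K.sum := ⟨_, rfl⟩
  have hn1 : 66 * w + 2 ≤ n := by omega
  have hn2 : 2 * (K.sum + n) ≤ d + 2 := by omega
  obtain ⟨κ, rfl⟩ : ∃ κ, n = κ + 1 := ⟨n - 1, by omega⟩
  have hκ := T_succ κ
  obtain ⟨c, hc⟩ : ∃ c, c = (κ + 1 + 1) / 2 := ⟨_, rfl⟩
  -- the total mass is large
  have hmass : T (κ + 1) ≤ TT S := by
    have h1 := TT_add K S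
    have h2 := TT_le_T_sum K
    have h3 := T_add_le K.sum (κ + 1)
    have h4 : T (K.sum + (κ + 1)) ≤ T ((d + 2) / 2) := T_mono (by omega)
    have h5 := two_T (d + 1)
    have h6 := two_T ((d + 2) / 2)
    have h7 : 16 * w + T ((d + 2) / 2) ≤ T (d + 1) := by
      obtain ⟨e, he⟩ : ∃ e, e = (d + 2) / 2 := ⟨_, rfl⟩
      rw [← he] at h6 ⊢
      have h8 : 2 * e ≤ d + 2 := by omega
      have h9 : 135 * w ≤ d := by omega
      nlinarith
    zify at *
    omega
  obtain ⟨A, B, hAB, hB1, hB2⟩ := exists_part w (T (κ + 1) - c) S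
    (fun m hm => (T_le_sq m).trans (Nat.pow_le_pow_left (hS m hm) 2)) (by omega)
  have hSA : ∀ m ∈ A, m ≤ M := fun m hm => hS m (by rw [hAB]; exact Multiset.mem_add.2 (Or.inl hm))
  have hSB : ∀ m ∈ B, m ≤ M := fun m hm => hS m (by rw [hAB]; exact Multiset.mem_add.2 (Or.inr hm))
  have hTκ : κ + 1 ≤ T (κ + 1) := by omega
  have e1 := TT_add K S
  have e2 : TT S = TT A + TT B := by rw [hAB, TT_add]
  have e3 := TT_add K A
  have hKA : K + S = (K + A) + B := by rw [hAB, add_assoc]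
  rw [hKA]
  have hwM : (w : ℤ) = (M : ℤ) ^ 2 := by rw [hw]; push_cast; rfl
  refine close_core (κ := κ) (H d le_rfl).toHFun C (by omega) (by omega) ?_ ?_ ?_ ?_
  · have h1 := winBase κ (h κ) (H κ (by omega)) M 0 B (by simp) hSB (by
      rw [zero_add, ← hwM]
      refine le_abs.2 (Or.inl ?_)
      zify at *
      omega)
    rw [zero_add] at h1
    omega
  · have h1 := winBase (κ - 1) (h (κ - 1)) (H (κ - 1) (by omega)) M 0 B (by simp) hSB (by
      rw [zero_add, ← hwM]
      refine le_abs.2 (Or.inr ?_)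
      have h2 : κ - 1 + 1 = κ := by omega
      rw [h2]
      zify at *
      omega)
    rw [zero_add] at h1
    have h2 : κ - 1 + 1 = κ := by omega
    rw [h2] at h1
    omega
  · have h1 := winBase d (h d) (H d le_rfl) M (κ ::ₘ K) A (by
      rw [Multiset.sum_cons]; omega) hSA (by
      rw [← hwM, Multiset.cons_add, TT_cons]
      refine le_abs.2 (Or.inl ?_)
      zify at *
      omega)
    rw [Multiset.cons_add, TT_cons] at h1
    have h2 : T κ + TT (K + A) ≤ T (d + 1) := by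
      zify at *
      omega
    omega
  · have h1 := winBase d (h d) (H d le_rfl) M ((κ + 1) ::ₘ K) A (by
      rw [Multiset.sum_cons]; omega) hSA (by
      rw [← hwM, Multiset.cons_add, TT_cons]
      refine le_abs.2 (Or.inr ?_)
      zify at *
      omega)
    rw [Multiset.cons_add, TT_cons] at h1
    zify at *
    omega

end ShghL
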