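import Pool.Agent.ShghL.Close2
import Pool.Agent.ShghL.CM
import Pool.Agent.ShghJ.Coll

/-!
# ShghL/Main1: large degrees
-/

namespace ShghL

open MvPolynomial ShghJ

universe u v

theorem hfunC_hF (F : Type u) [Field F] (d : ℕ) (hd : ∀ n : ℕ, 1 ≤ n → n ≤ d → (n : F) ≠ 0) :
    HFunC d (hF F d) :=
  { hfun_hF F d hd with
    coll := fun S m w a o h1 h2 h3 => hF_coll F d hd S m w a o h1 h2 h3 }

theorem cmFun_hF (F : Type u) [Field F] (d : ℕ) (hd : ∀ n : ℕ, 1 ≤ n → n ≤ d → (n : F) ≠ 0) :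
    CMFun (hF F) d := fun d' κ A B hd' h1 h2 =>
  tCM F d' κ A B (fun n h3 h4 => hd n h3 (h4.trans hd')) h1 h2

/-- The dimension in large degrees. -/
theorem hF_large (F : Type u) [Field F] (d : ℕ) (hd : ∀ n : ℕ, 1 ≤ n → n ≤ d → (n : F) ≠ 0)
    (M : ℕ) (K S : Multiset ℕ) (hM : 1 ≤ M) (hS : ∀ m ∈ S, m ≤ M)
    (hK : 2 * K.sum + 135 * M ^ 2 ≤ d) :
    hF F d (K + S) = T (d + 1) - TT (K + S) :=
  large_window (h := hF F) (fun d' hd' => hfunC_hF F d' fun n h1 h2 => hd n h1 (h2.trans hd'))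
    (cmFun_hF F d hd) M K S hM hS hK

/-- The dimension in large degrees, mixed form. -/
theorem hF_mixed (F : Type u) [Field F] (d : ℕ) (hd : ∀ n : ℕ, 1 ≤ n → n ≤ d → (n : F) ≠ 0)
    (K S : Multiset ℕ) (hK : 2 * K.sum ≤ d + 2)
    (hS : ∀ m ∈ S, 2 ≤ m → 501 * (m : ℝ) ^ 2 ≤
      max (3 * |(T (d + 1) : ℝ) - TT (K + S)|) (((d : ℝ) - 2 * (K.sum : ℕ)) / 13) +
        TT (S.filter (fun j => j < m))) :
    hF F d (K + S) = T (d + 1) - TT (K + S) :=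
  large_mixed (h := hF F) (fun d' hd' => hfunC_hF F d' fun n h1 h2 => hd n h1 (h2.trans hd'))
    (cmFun_hF F d hd) K S hK hS

end ShghL
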