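import Pool.Agent.ShghL.Close1

/-!
# ShghL/Close2: large degrees, mixed form
-/

namespace ShghL

open ShghJ

variable {h : ℕ → Multiset ℕ → ℕ} {d : ℕ}

/-- Induction on a multiset, adding a largest element. -/
theorem maxInd {p : Multiset ℕ → Prop} (h0 : p 0)
    (h1 : ∀ (m : ℕ) (S : Multiset ℕ), (∀ a ∈ S, a ≤ m) → p S → p (m ::ₘ S)) (S : Multiset ℕ) :
    p S := by
  have key : ∀ l : List ℕ, l.Pairwise (· ≥ ·) → p (l : Multiset ℕ) := by
    intro l
    induction l with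
    | nil => intro _; exact h0
    | cons a l ih =>
      intro hl
      rw [List.pairwise_cons] at hl
      rw [← Multiset.cons_coe]
      exact h1 a _ (fun b hb => hl.1 b (by simpa using hb)) (ih hl.2)
  have h2 : ((S.sort (· ≥ ·) : List ℕ) : Multiset ℕ) = S := Multiset.sort_eq _ _
  rw [← h2]
  exact key _ (Multiset.pairwise_sort _ _)

/-- The mass of the members below `x`. -/
def rr (S : Multiset ℕ) (x : ℕ) : ℕ := TT (S.filter (fun j => j < x))

theorem rr_add (A B : Multiset ℕ) (x : ℕ) : rr (A + B) x = rr A x + rr B x := by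
  unfold rr
  rw [Multiset.filter_add, TT_add]

theorem rr_zero (x : ℕ) : rr 0 x = 0 := by
  unfold rr
  rw [Multiset.filter_zero, TT_zero]

theorem rr_le (S : Multiset ℕ) (x : ℕ) : rr S x ≤ TT S := by
  have h1 : S.filter (fun j => j < x) + S.filter (fun j => ¬ j < x) = S :=
    Multiset.filter_add_not _ _
  have h2 := congrArg TT h1
  rw [TT_add] at h2
  unfold rr
  omega

theorem rr_eq_zero {S : Multiset ℕ} {x : ℕ} (hS : ∀ a ∈ S, x ≤ a) : rr S x = 0 := by
  unfold rr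
  rw [Multiset.filter_eq_nil.2 (fun a ha => not_lt.2 (hS a ha)), TT_zero]

theorem rr_eq_TT {S : Multiset ℕ} {x : ℕ} (hS : ∀ a ∈ S, a < x) : rr S x = TT S := by
  unfold rr
  rw [Multiset.filter_eq_self.2 hS]

theorem rr_cons_ge {S : Multiset ℕ} {m x : ℕ} (hm : x ≤ m) : rr (m ::ₘ S) x = rr S x := by
  unfold rr
  rw [Multiset.filter_cons_of_neg (p := fun j => j < x) S (not_lt.2 hm)]

theorem rr_cons_lt {S : Multiset ℕ} {m x : ℕ} (hm : m < x) : rr (m ::ₘ S) x = T m + rr S x := by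
  unfold rr
  rw [Multiset.filter_cons_of_pos (p := fun j => j < x) S hm, TT_cons]

/-- Splitting into two halves. -/
theorem half_split (S : Multiset ℕ) : ∃ A B : Multiset ℕ, S = A + B ∧ ∀ x : ℕ,
    rr S x ≤ 2 * rr A x + T (x - 1) ∧ rr S x ≤ 2 * rr B x + T (x - 1) := by
  induction S using maxInd with
  | h0 => exact ⟨0, 0, by simp, fun x => by simp [rr_zero]⟩
  | h1 m S hm ih =>
    obtain ⟨A, B, hAB, hr⟩ := ih
    have h1 := hr (m + 1)
    have hmem : ∀ a ∈ A + B, a < m + 1 := fun a ha => Nat.lt_succ_of_le (hm a (hAB ▸ ha))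
    have hA : ∀ a ∈ A, a < m + 1 := fun a ha => hmem a (Multiset.mem_add.2 (Or.inl ha))
    have hB : ∀ a ∈ B, a < m + 1 := fun a ha => hmem a (Multiset.mem_add.2 (Or.inr ha))
    have hS : ∀ a ∈ S, a < m + 1 := fun a ha => Nat.lt_succ_of_le (hm a ha)
    rw [rr_eq_TT hA, rr_eq_TT hB, rr_eq_TT hS, Nat.add_sub_cancel] at h1
    have h2 : TT S = TT A + TT B := by rw [hAB, TT_add]
    rcases le_total (TT A) (TT B) with h3 | h3
    · refine ⟨m ::ₘ A, B, by rw [hAB, Multiset.cons_add], fun x => ?_⟩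
      rcases le_or_gt x m with h4 | h4
      · rw [rr_cons_ge h4, rr_cons_ge h4]
        exact hr x
      · rw [rr_cons_lt h4, rr_cons_lt h4,
          rr_eq_TT (S := A) (fun a ha => lt_of_lt_of_le (hA a ha) h4),
          rr_eq_TT (S := B) (fun a ha => lt_of_lt_of_le (hB a ha) h4),
          rr_eq_TT (S := S) (fun a ha => lt_of_lt_of_le (hS a ha) h4)]
        have h5 : T m ≤ T (x - 1) := T_mono (by omega)
        omega
    · refine ⟨A, m ::ₘ B, by rw [hAB, Multiset.add_cons], fun x => ?_⟩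
      rcases le_or_gt x m with h4 | h4
      · rw [rr_cons_ge h4, rr_cons_ge h4]
        exact hr x
      · rw [rr_cons_lt h4, rr_cons_lt h4,
          rr_eq_TT (S := A) (fun a ha => lt_of_lt_of_le (hA a ha) h4),
          rr_eq_TT (S := B) (fun a ha => lt_of_lt_of_le (hB a ha) h4),
          rr_eq_TT (S := S) (fun a ha => lt_of_lt_of_le (hS a ha) h4)]
        have h5 : T m ≤ T (x - 1) := T_mono (by omega)
        omega

/-- An initial segment with mass just above `τ`. -/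
theorem exists_prefix (S : Multiset ℕ) (τ : ℝ) (hτ : 0 < τ) (hS : τ ≤ TT S) :
    ∃ (S1 S2 : Multiset ℕ) (m : ℕ), S = S1 + S2 ∧ m ∈ S1 ∧ (∀ a ∈ S1, a ≤ m) ∧
      (∀ b ∈ S2, m ≤ b) ∧ τ ≤ TT S1 ∧ (TT S1 : ℝ) < τ + T m ∧ (rr S m : ℝ) < τ := by
  induction S using maxInd with
  | h0 =>
    rw [TT_zero] at hS
    simp only [Nat.cast_zero] at hS
    exact absurd hS (not_le.2 hτ)
  | h1 m S hm ih =>
    by_cases h1 : τ ≤ TT S
    · obtain ⟨S1, S2, m', h2, h3, h4, h5, h6, h7, h8⟩ := ih h1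
      have hm' : m' ≤ m := hm m' (by rw [h2]; exact Multiset.mem_add.2 (Or.inl h3))
      refine ⟨S1, m ::ₘ S2, m', by rw [h2, Multiset.add_cons], h3, h4, ?_, h6, h7, ?_⟩
      · intro b hb
        rcases Multiset.mem_cons.1 hb with rfl | hb
        · exact hm'
        · exact h5 b hb
      · rw [rr_cons_ge hm']
        exact h8
    · rw [not_le] at h1
      refine ⟨m ::ₘ S, 0, m, by simp, Multiset.mem_cons_self m S, ?_, by simp, hS, ?_, ?_⟩
      · intro a ha
        rcases Multiset.mem_cons.1 ha with rfl | ha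
        · exact le_rfl
        · exact hm a ha
      · rw [TT_cons]
        push_cast
        linarith
      · rw [rr_cons_ge le_rfl]
        have h2 : (rr S m : ℝ) ≤ TT S := by exact_mod_cast rr_le S m
        linarith

theorem T_le_sq' (m : ℕ) (hm : 2 ≤ m) : (T m : ℝ) ≤ 3 / 4 * (m : ℝ) ^ 2 := by
  rw [T_real]
  have : (2 : ℝ) ≤ m := by exact_mod_cast hm
  nlinarith

theorem T_pred_le (m : ℕ) (hm : 1 ≤ m) : (T (m - 1) : ℝ) ≤ 1 / 2 * (m : ℝ) ^ 2 := by
  rw [T_real, Nat.cast_sub hm]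
  have : (1 : ℝ) ≤ m := by exact_mod_cast hm
  push_cast
  nlinarith

theorem T_le_one (m : ℕ) (hm : ¬ 2 ≤ m) : (T m : ℝ) ≤ 1 := by
  have : m = 0 ∨ m = 1 := by omega
  rcases this with rfl | rfl
  · simp [T]
  · simp [T]

/-- The choice of the parts. -/
theorem choose_parts {S : Multiset ℕ} {Y : ℝ} {N : ℕ} (hY : 502 ≤ Y) (hN : 13 * Y ≤ N)
    (hmass : (1.92 : ℝ) * T N ≤ TT S)
    (hS : ∀ m ∈ S, 2 ≤ m → 501 * (m : ℝ) ^ 2 ≤ 2 * Y + rr S m) :
    ∃ (A B : Multiset ℕ) (n : ℕ), S = A + B ∧ n ≤ N ∧ 12.43 * Y ≤ n ∧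
      3.1 * Y ≤ (T n : ℝ) - TT B ∧ (T n : ℝ) - TT B ≤ n - 3.1 * Y ∧
      (∀ m ∈ A, 2 ≤ m → 250 * (m : ℝ) ^ 2 ≤ 7.3 * Y + rr A m) ∧
      (∀ m ∈ B, 2 ≤ m → 250 * (m : ℝ) ^ 2 ≤ Y + rr B m) := by
  classical
  have hNr : (6526 : ℝ) ≤ N := by linarith
  have hTN : (T N : ℝ) = (N : ℝ) * (N + 1) / 2 := T_real N
  obtain ⟨S1, S2, ml, h1, h2, h3, h4, h5, h6, h7⟩ := exists_prefix S (1.92 * T N)
    (by rw [hTN]; positivity) hmass
  obtain ⟨A1, B0, h8, h9⟩ := half_split S1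
  have hml : (T ml : ℝ) ≤ 0.003 * T N := by
    by_cases h10 : 2 ≤ ml
    · have h11 := hS ml (by rw [h1]; exact Multiset.mem_add.2 (Or.inl h2)) h10
      have h12 := T_le_sq' ml h10
      rw [hTN] at h7 ⊢
      nlinarith
    · have h12 := T_le_one ml h10
      rw [hTN]
      nlinarith
  -- the masses of the halves
  have h10 := h9 (ml + 1)
  have hS1lt : ∀ a ∈ S1, a < ml + 1 := fun a ha => Nat.lt_succ_of_le (h3 a ha)
  have hA1lt : ∀ a ∈ A1, a < ml + 1 := fun a ha =>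
    hS1lt a (by rw [h8]; exact Multiset.mem_add.2 (Or.inl ha))
  have hB0lt : ∀ a ∈ B0, a < ml + 1 := fun a ha =>
    hS1lt a (by rw [h8]; exact Multiset.mem_add.2 (Or.inr ha))
  rw [rr_eq_TT hS1lt, rr_eq_TT hA1lt, rr_eq_TT hB0lt, Nat.add_sub_cancel] at h10
  have h11 : (TT S1 : ℝ) ≤ 2 * TT A1 + T ml := by exact_mod_cast h10.1
  have h12 : (TT S1 : ℝ) ≤ 2 * TT B0 + T ml := by exact_mod_cast h10.2
  have h13 : (TT S1 : ℝ) = TT A1 + TT B0 := by
    rw [h8, TT_add]
    push_cast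
    ring
  have hB0u : (TT B0 : ℝ) ≤ 0.963 * T N := by linarith
  have hB0l : (0.958 : ℝ) * T N ≤ TT B0 := by linarith
  have hA1l : (0.958 : ℝ) * T N ≤ TT A1 := by linarith
  set A0 : Multiset ℕ := A1 + S2 with hA0
  have hSAB : S = A0 + B0 := by
    rw [h1, h8, hA0, add_assoc, add_assoc, add_comm B0 S2]
  -- the mass conditions of the halves
  have hA0c : ∀ m ∈ A0, 2 ≤ m → 250.25 * (m : ℝ) ^ 2 ≤ Y + rr A0 m := by
    intro m hm h2m
    have e1 := hS m (by rw [hSAB]; exact Multiset.mem_add.2 (Or.inl hm)) h2m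
    have e2 : (rr S1 m : ℝ) ≤ 2 * rr A1 m + T (m - 1) := by exact_mod_cast (h9 m).1
    have e3 : (rr S m : ℝ) = rr S1 m + rr S2 m := by
      rw [h1, rr_add]
      push_cast
      ring
    have e4 : (rr A0 m : ℝ) = rr A1 m + rr S2 m := by
      rw [hA0, rr_add]
      push_cast
      ring
    have e5 := T_pred_le m (by omega)
    have e6 : (0 : ℝ) ≤ rr S2 m := Nat.cast_nonneg _
    linarith
  have hB0c : ∀ m ∈ B0, 2 ≤ m → 250.25 * (m : ℝ) ^ 2 ≤ Y + rr B0 m := by
    intro m hm h2m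
    have e1 := hS m (by rw [hSAB]; exact Multiset.mem_add.2 (Or.inr hm)) h2m
    have e2 : (rr S1 m : ℝ) ≤ 2 * rr B0 m + T (m - 1) := by exact_mod_cast (h9 m).2
    have e7 : rr S2 m = 0 := rr_eq_zero fun a ha => by
      have := h4 a ha
      have := hB0lt m hm
      omega
    have e3 : (rr S m : ℝ) = rr S1 m := by
      rw [h1, rr_add, e7, add_zero]
    have e5 := T_pred_le m (by omega)
    linarith
  -- the degree
  have hex : ∃ n : ℕ, (TT B0 : ℝ) + 3.1 * Y ≤ T n := by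
    refine ⟨N, ?_⟩
    rw [hTN] at hB0u ⊢
    nlinarith
  obtain ⟨n, hn, hmin⟩ : ∃ n : ℕ, ((TT B0 : ℝ) + 3.1 * Y ≤ T n) ∧
      ∀ k : ℕ, k < n → ¬ ((TT B0 : ℝ) + 3.1 * Y ≤ T k) :=
    ⟨Nat.find hex, Nat.find_spec hex, fun k hk => Nat.find_min hex hk⟩
  have hnN : n ≤ N := by
    by_contra hcon
    apply hmin N (by omega)
    rw [hTN] at hB0u ⊢
    nlinarith
  have hTn : (T n : ℝ) = (n : ℝ) * (n + 1) / 2 := T_real n
  have hn0 : (0 : ℝ) ≤ n := Nat.cast_nonneg _
  have hn1 : 12.43 * Y ≤ (n : ℝ) := by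
    by_contra hcon
    rw [not_le] at hcon
    have e1 : (n : ℝ) ≤ 0.9565 * N := by linarith
    have e2 : (0.958 : ℝ) * T N ≤ T n := by linarith
    rw [hTN, hTn] at e2
    nlinarith
  have hn2 : 1 ≤ n := by
    rcases Nat.eq_zero_or_pos n with h0 | h0
    · exfalso
      rw [h0] at hn1
      simp only [Nat.cast_zero] at hn1
      linarith
    · exact h0
  have hn3 : (T n : ℝ) < TT B0 + 3.1 * Y + n := by
    have e1 := hmin (n - 1) (by omega)
    rw [not_le] at e1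
    have e2 : T n = T (n - 1) + n := by
      obtain ⟨k, rfl⟩ : ∃ k, n = k + 1 := ⟨n - 1, by omega⟩
      rw [Nat.add_sub_cancel, T_succ]
    have e3 : (T n : ℝ) = T (n - 1) + n := by exact_mod_cast e2
    linarith
  by_cases hcase : (T n : ℝ) - TT B0 ≤ n - 3.1 * Y
  · refine ⟨A0, B0, n, hSAB, hnN, hn1, by linarith, hcase, ?_, ?_⟩
    · intro m hm h2m
      have := hA0c m hm h2m
      nlinarith [sq_nonneg (m : ℝ)]
    · intro m hm h2m
      have := hB0c m hm h2m
      nlinarith [sq_nonneg (m : ℝ)]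
  · rw [not_le] at hcase
    have hA0l : (6.2 : ℝ) * Y ≤ TT A0 := by
      have e1 : (TT A0 : ℝ) = TT A1 + TT S2 := by
        rw [hA0, TT_add]
        push_cast
        ring
      have e2 : (0 : ℝ) ≤ TT S2 := Nat.cast_nonneg _
      rw [hTN] at hA1l
      nlinarith
    obtain ⟨Z, A, mz, z1, z2, z3, z4, z5, z6, z7⟩ := exists_prefix A0 (6.2 * Y)
      (by positivity) hA0l
    have hmz : (T mz : ℝ) ≤ 0.0225 * Y := by
      by_cases h10 : 2 ≤ mz
      · have h11 := hA0c mz (by rw [z1]; exact Multiset.mem_add.2 (Or.inl z2)) h10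
        have h12 := T_le_sq' mz h10
        nlinarith
      · have h12 := T_le_one mz h10
        linarith
    refine ⟨A, B0 + Z, n, ?_, hnN, hn1, ?_, ?_, ?_, ?_⟩
    · rw [hSAB, z1, add_comm Z A, add_assoc, add_comm Z B0]
    · rw [TT_add]
      push_cast
      linarith
    · rw [TT_add]
      push_cast
      linarith
    · intro m hm h2m
      have e1 := hA0c m (by rw [z1]; exact Multiset.mem_add.2 (Or.inr hm)) h2m
      have e2 : (rr A0 m : ℝ) = rr Z m + rr A m := by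
        rw [z1, rr_add]
        push_cast
        ring
      have e3 : (rr Z m : ℝ) ≤ TT Z := by exact_mod_cast rr_le Z m
      nlinarith [sq_nonneg (m : ℝ)]
    · intro m hm h2m
      have e5 : (rr (B0 + Z) m : ℝ) = rr B0 m + rr Z m := by
        rw [rr_add]
        push_cast
        ring
      rcases Multiset.mem_add.1 hm with hm | hm
      · have e1 := hB0c m hm h2m
        have e2 : (0 : ℝ) ≤ rr Z m := Nat.cast_nonneg _
        nlinarith [sq_nonneg (m : ℝ)]
      · have e1 := hS m (by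
          rw [hSAB, z1]
          exact Multiset.mem_add.2 (Or.inl (Multiset.mem_add.2 (Or.inl hm)))) h2m
        have e2 : rr A m = 0 := rr_eq_zero fun a ha => (z3 m hm).trans (z4 a ha)
        have e3 : (rr S m : ℝ) = rr B0 m + rr Z m := by
          rw [hSAB, z1, rr_add, rr_add, e2]
          push_cast
          ring
        have e6 : (0 : ℝ) ≤ rr B0 m + rr Z m := by positivity
        nlinarith [sq_nonneg (m : ℝ)]

/-- LARGE DEGREES, mixed form. -/
theorem large_mixed (H : ∀ d' ≤ d, HFunC d' (h d')) (C : CMFun h d) (K S : Multiset ℕ)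
    (hK : 2 * K.sum ≤ d + 2)
    (hS : ∀ m ∈ S, 2 ≤ m → 501 * (m : ℝ) ^ 2 ≤
      max (3 * |(T (d + 1) : ℝ) - TT (K + S)|) (((d : ℝ) - 2 * (K.sum : ℕ)) / 13) +
        TT (S.filter (fun j => j < m))) :
    h d (K + S) = T (d + 1) - TT (K + S) := by
  have hS' : ∀ m ∈ S, 2 ≤ m → 501 * (m : ℝ) ^ 2 ≤
      max (3 * |(T (d + 1) : ℝ) - TT (K + S)|) (((d : ℝ) - 2 * (K.sum : ℕ)) / 13) + rr S m := hS
  obtain ⟨Y, hY⟩ : ∃ Y : ℝ, Y = ((d : ℝ) - 2 * (K.sum : ℕ)) / 26 := ⟨_, rfl⟩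
  have hY2 : ((d : ℝ) - 2 * (K.sum : ℕ)) / 13 = 2 * Y := by rw [hY]; ring
  rw [hY2] at hS'
  have habs := abs_nonneg ((T (d + 1) : ℝ) - TT (K + S))
  by_cases h1 : 2 * Y ≤ 3 * |(T (d + 1) : ℝ) - TT (K + S)|
  · refine yBase d (h d) (H d le_rfl) K S (3 * |(T (d + 1) : ℝ) - TT (K + S)|) hK
      (by positivity) (fun m hm h2m => ?_) le_rfl
    have e1 := hS' m hm h2m
    rw [max_eq_left h1] at e1
    change _ ≤ _ + (rr S m : ℝ)
    nlinarith [sq_nonneg (m : ℝ)]
  rw [not_le] at h1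
  have hS2 : ∀ m ∈ S, 2 ≤ m → 501 * (m : ℝ) ^ 2 ≤ 2 * Y + rr S m := by
    intro m hm h2m
    have e1 := hS' m hm h2m
    rwa [max_eq_right h1.le] at e1
  by_cases h2 : 2 * Y ≤ 1004
  · refine yBase d (h d) (H d le_rfl) K S 0 hK le_rfl (fun m hm h2m => ?_) (by positivity)
    have e1 := hS2 m hm h2m
    change _ ≤ _ + (rr S m : ℝ)
    have e2 : (2 : ℝ) ≤ m := by exact_mod_cast h2m
    nlinarith
  rw [not_le] at h2
  obtain ⟨N, hN⟩ : ∃ N, N = (d + 2) / 2 - K.sum := ⟨_, rfl⟩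
  have hN1 : 2 * (K.sum + N) ≤ d + 2 := by omega
  have hN2 : d + 1 ≤ 2 * (K.sum + N) := by omega
  have hN2' : (d : ℝ) + 1 ≤ 2 * ((K.sum : ℕ) + N) := by exact_mod_cast hN2
  have hNY : 13 * Y ≤ (N : ℝ) := by
    rw [hY]
    linarith
  have hNr : (6526 : ℝ) ≤ N := by linarith
  have e1 : (TT (K + S) : ℝ) = TT K + TT S := by
    rw [TT_add]
    push_cast
    ring
  have hχ : |(T (d + 1) : ℝ) - TT (K + S)| < 2 / 3 * Y := by linarith
  rw [abs_lt] at hχ
  have hmass : (1.92 : ℝ) * T N ≤ TT S := by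
    have g1 : (TT K : ℝ) ≤ T K.sum := by exact_mod_cast TT_le_T_sum K
    have g2 : (T K.sum : ℝ) + T N ≤ T (K.sum + N) := by exact_mod_cast T_add_le K.sum N
    have g3 : (0 : ℝ) ≤ T K.sum := Nat.cast_nonneg _
    obtain ⟨e, he⟩ : ∃ e, e = K.sum + N := ⟨_, rfl⟩
    rw [← he] at g2
    have g4 : (T e : ℝ) = (e : ℝ) * (e + 1) / 2 := T_real e
    have g5 : (T (2 * e - 1) : ℝ) ≤ T (d + 1) := by
      exact_mod_cast T_mono (show 2 * e - 1 ≤ d + 1 by omega)
    have heN : (N : ℝ) ≤ e := by exact_mod_cast (show N ≤ e by omega)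
    have he1 : 1 ≤ 2 * e := by
      have : (1 : ℝ) ≤ 2 * e := by linarith
      exact_mod_cast this
    have g6 : (T (2 * e - 1) : ℝ) = (2 * (e : ℝ) - 1) * (2 * e) / 2 := by
      rw [T_real, Nat.cast_sub he1]
      push_cast
      ring
    nlinarith
  obtain ⟨A, B, n, p1, p2, p3, p4, p5, p6, p7⟩ := choose_parts (by linarith) hNY hmass hS2
  have hn0 : 1 ≤ n := by
    rcases Nat.eq_zero_or_pos n with h0 | h0
    · exfalso
      rw [h0] at p3
      simp only [Nat.cast_zero] at p3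
      linarith
    · exact h0
  obtain ⟨κ, rfl⟩ : ∃ κ, n = κ + 1 := ⟨n - 1, by omega⟩
  have hκ1 : 1 ≤ κ := by
    have : (2 : ℝ) ≤ ((κ + 1 : ℕ) : ℝ) := by linarith
    have : 2 ≤ κ + 1 := by exact_mod_cast this
    omega
  have hκd : κ ≤ d := by omega
  have hTκ : (T (κ + 1) : ℝ) = T κ + (κ + 1) := by
    rw [T_succ]
    push_cast
    ring
  have hc : (((κ + 1 : ℕ) : ℝ)) = κ + 1 := by push_cast; ring
  rw [hc] at p3 p5
  have e2 : (TT S : ℝ) = TT A + TT B := by
    rw [p1, TT_add]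
    push_cast
    ring
  have e3 : (TT (K + A) : ℝ) = TT K + TT A := by
    rw [TT_add]
    push_cast
    ring
  have hKA : K + S = (K + A) + B := by rw [p1, add_assoc]
  have hp6 : ∀ m ∈ A, 2 ≤ m → 250 * (m : ℝ) ^ 2 ≤ 7.3 * Y + TT (A.filter (fun j => j < m)) := p6
  have hp7 : ∀ m ∈ B, 2 ≤ m → 250 * (m : ℝ) ^ 2 ≤ Y + TT (B.filter (fun j => j < m)) := p7
  rw [hKA]
  refine close_core (κ := κ) (H d le_rfl).toHFun C hκ1 hκd ?_ ?_ ?_ ?_
  · have q1 := yBase κ (h κ) (H κ hκd) 0 B Y (by simp) (by linarith) hp7 (by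
      rw [zero_add, abs_of_nonneg (by linarith)]
      linarith)
    rw [zero_add] at q1
    have q2 : TT B ≤ T (κ + 1) := by
      have : (TT B : ℝ) ≤ T (κ + 1) := by linarith
      exact_mod_cast this
    omega
  · have q0 : κ - 1 + 1 = κ := by omega
    have q1 := yBase (κ - 1) (h (κ - 1)) (H (κ - 1) (by omega)) 0 B Y (by simp) (by linarith)
      hp7 (by
        rw [zero_add, q0, abs_of_nonpos (by linarith)]
        linarith)
    rw [zero_add, q0] at q1
    have q2 : T κ ≤ TT B := by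
      have : (T κ : ℝ) ≤ TT B := by linarith
      exact_mod_cast this
    omega
  · have q3 : (TT ((κ ::ₘ K) + A) : ℝ) = T κ + TT (K + A) := by
      rw [Multiset.cons_add, TT_cons]
      push_cast
      ring
    have q1 := yBase d (h d) (H d le_rfl) (κ ::ₘ K) A (7.3 * Y) (by
      rw [Multiset.sum_cons]; omega) (by linarith) hp6 (by
      rw [q3, abs_of_nonneg (by linarith)]
      linarith)
    rw [Multiset.cons_add, TT_cons] at q1
    have q2 : T κ + TT (K + A) ≤ T (d + 1) := by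
      have : (T κ : ℝ) + TT (K + A) ≤ T (d + 1) := by linarith
      exact_mod_cast this
    omega
  · have q3 : (TT (((κ + 1) ::ₘ K) + A) : ℝ) = T (κ + 1) + TT (K + A) := by
      rw [Multiset.cons_add, TT_cons]
      push_cast
      ring
    have q1 := yBase d (h d) (H d le_rfl) ((κ + 1) ::ₘ K) A (7.3 * Y) (by
      rw [Multiset.sum_cons]; omega) (by linarith) hp6 (by
      rw [q3, abs_of_nonpos (by linarith)]
      linarith)
    rw [Multiset.cons_add, TT_cons] at q1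
    have q2 : T (d + 1) ≤ T (κ + 1) + TT (K + A) := by
      have : (T (d + 1) : ℝ) ≤ T (κ + 1) + TT (K + A) := by linarith
      exact_mod_cast this
    omega

end ShghL
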