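import Pool.Agent.ShghL.Close2
import Pool.Agent.ShghJ.CombD5

/-!
# ShghL/CloseD1: large degrees, window form with the sharp constants
-/

namespace ShghL

open ShghJ

variable {h : ℕ → Multiset ℕ → ℕ} {d : ℕ}

/-- LARGE DEGREES: no window if `2 ΣK + 72 M² ≤ d`. -/
theorem large_windowD (H : ∀ d' ≤ d, HFunD d' (h d')) (C : CMFun h d) (M : ℕ) (K S : Multiset ℕ)
    (hM : 1 ≤ M) (hS : ∀ m ∈ S, m ≤ M) (hd : 2 * K.sum + 72 * M ^ 2 ≤ d) :
    h d (K + S) = T (d + 1) - TT (K + S) := by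
  have hM2 : 1 ≤ M ^ 2 := Nat.one_le_pow _ _ hM
  have hlow := (H d le_rfl).toHFun.chi_le (K + S)
  obtain ⟨hwin1, hwin2⟩ := winBaseD d (h d) (H d le_rfl) M K S (by omega) hS
  set w := M ^ 2 with hw
  have hwM : (w : ℤ) = (M : ℤ) ^ 2 := by rw [hw]; push_cast; rfl
  rw [← hwM] at hwin2
  by_cases hχ : 23 * (w : ℤ) ≤ 2 * ((T (d + 1) : ℤ) - TT (K + S))
  · have := hwin2 hχ
    omega
  by_cases hχ2 : T (d + 1) + 6 * w ≤ TT (K + S)
  · by_cases h0 : 1 ≤ h d (K + S)
    · have := hwin1 h0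
      omega
    · omega
  obtain ⟨n, hn⟩ : ∃ n, n = (d + 2) / 2 - K.sum := ⟨_, rfl⟩
  have hn1 : 36 * w ≤ n := by omega
  have hn2 : 2 * (K.sum + n) ≤ d + 2 := by omega
  obtain ⟨κ, rfl⟩ : ∃ κ, n = κ + 1 := ⟨n - 1, by omega⟩
  have hκ := T_succ κ
  obtain ⟨c, hc⟩ : ∃ c, c = (35 * w + 1) / 2 := ⟨_, rfl⟩
  -- the total mass is large
  have hmass : T (κ + 1) ≤ TT S := by
    have h1 := TT_add K S
    have h2 := TT_le_T_sum K
    have h3 := T_add_le K.sum (κ + 1)
    have h4 : T (K.sum + (κ + 1)) ≤ T ((d + 2) / 2) := T_mono (by omega)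
    have h5 := two_T (d + 1)
    have h6 := two_T ((d + 2) / 2)
    have h7 : 12 * w + T ((d + 2) / 2) ≤ T (d + 1) := by
      obtain ⟨e, he⟩ : ∃ e, e = (d + 2) / 2 := ⟨_, rfl⟩
      rw [← he] at h6 ⊢
      have h8 : 2 * e ≤ d + 2 := by omega
      have h9 : 72 * w ≤ d := by omega
      nlinarith
    zify at *
    omega
  obtain ⟨A, B, hAB, hB1, hB2⟩ := exists_part w (T (κ + 1) - c) S
    (fun m hm => (T_le_sq m).trans (Nat.pow_le_pow_left (hS m hm) 2)) (by omega)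
  have hSA : ∀ m ∈ A, m ≤ M := fun m hm => hS m (by rw [hAB]; exact Multiset.mem_add.2 (Or.inl hm))
  have hSB : ∀ m ∈ B, m ≤ M := fun m hm => hS m (by rw [hAB]; exact Multiset.mem_add.2 (Or.inr hm))
  have hTκ : κ + 1 ≤ T (κ + 1) := by omega
  have e1 := TT_add K S
  have e2 : TT S = TT A + TT B := by rw [hAB, TT_add]
  have e3 := TT_add K A
  have hKA : K + S = (K + A) + B := by rw [hAB, add_assoc]
  rw [hKA]
  refine close_core (κ := κ) (H d le_rfl).toHFun C (by omega) (by omega) ?_ ?_ ?_ ?_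
  · have h1 := (winBaseD κ (h κ) (H κ (by omega)) M 0 B (by simp) hSB).2 (by
      rw [zero_add, ← hwM]
      zify at *
      omega)
    rw [zero_add] at h1
    exact h1
  · have h1 := (winBaseD (κ - 1) (h (κ - 1)) (H (κ - 1) (by omega)) M 0 B (by simp) hSB).1
    have h2 : κ - 1 + 1 = κ := by omega
    rw [zero_add, h2, ← hw] at h1
    by_contra h0
    have := h1 (by omega)
    omega
  · have h1 := (winBaseD d (h d) (H d le_rfl) M (κ ::ₘ K) A (by
      rw [Multiset.sum_cons]; omega) hSA).2 (by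
      rw [← hwM, Multiset.cons_add, TT_cons]
      zify at *
      omega)
    rw [Multiset.cons_add, TT_cons] at h1
    exact h1
  · have h1 := (winBaseD d (h d) (H d le_rfl) M ((κ + 1) ::ₘ K) A (by
      rw [Multiset.sum_cons]; omega) hSA).1
    rw [Multiset.cons_add, TT_cons, ← hw] at h1
    by_contra h0
    have := h1 (by omega)
    omega

end ShghL
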