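import Pool.Agent.ShghJ.Spec
import Pool.Agent.ShghJ.HFun

/-!
# A degeneration of the plane for large degrees: statements of the modules of the package ShghL

Let `A`, `B` be multiplicities and `κ ≤ d`. The points with the multiplicities `B` are moved to the
origin along `(t ^ (2 (d + 2)) q_0, t ^ (2 (d + 1)) q_1)`. In the limit a curve splits into a part with
all monomials in `Low` (a curve of degree `κ` with the multiplicities `B`) and a part without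
monomials in `Low` (a curve of degree `d` with a point of multiplicity `κ` at the origin and the
multiplicities `A`), where `Low = {x ^ i y ^ j : i + j < κ, or i + j = κ, i < ρ}`.
-/

namespace ShghL

open MvPolynomial ShghJ

universe u v

/-- The members of `V` without monomials `x ^ i y ^ j`, `i + j < κ`, or `i + j = κ`, `i < ρ`. -/
def FF {K : Type*} [Field K] (V : Submodule K (MvPolynomial (Fin 2) K)) (κ ρ : ℕ) :
    Submodule K (MvPolynomial (Fin 2) K) where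
  carrier := {f | f ∈ V ∧ (∀ i j, i + j < κ → f.coeff (ex i j) = 0) ∧
    ∀ i j, i + j = κ → i < ρ → f.coeff (ex i j) = 0}
  add_mem' := fun {a b} ha hb => ⟨V.add_mem ha.1 hb.1,
    fun i j h => by rw [coeff_add, ha.2.1 i j h, hb.2.1 i j h, add_zero],
    fun i j h h' => by rw [coeff_add, ha.2.2 i j h h', hb.2.2 i j h h', add_zero]⟩
  zero_mem' := ⟨V.zero_mem, fun _ _ _ => coeff_zero _, fun _ _ _ _ => coeff_zero _⟩
  smul_mem' := fun c f hf => ⟨V.smul_mem c hf.1,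
    fun i j h => by rw [coeff_smul, hf.2.1 i j h, smul_zero],
    fun i j h h' => by rw [coeff_smul, hf.2.2 i j h h', smul_zero]⟩

/-- The polynomials of degree `≤ κ` with multiplicities `μ` at the points `q` and without monomials
`x ^ i y ^ (κ - i)`, `ρ ≤ i`. -/
def PP {K : Type*} [Field K] {s : ℕ} (κ ρ : ℕ) (μ : Fin s → ℕ) (q : Fin s → Fin 2 → K) :
    Submodule K (MvPolynomial (Fin 2) K) where
  carrier := {g | g ∈ ShghT.LS κ μ q ∧ ∀ i j, i + j = κ → ρ ≤ i → g.coeff (ex i j) = 0}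
  add_mem' := fun {a b} ha hb => ⟨(ShghT.LS κ μ q).add_mem ha.1 hb.1,
    fun i j h h' => by rw [coeff_add, ha.2 i j h h', hb.2 i j h h', add_zero]⟩
  zero_mem' := ⟨(ShghT.LS κ μ q).zero_mem, fun _ _ _ _ => coeff_zero _⟩
  smul_mem' := fun c f hf => ⟨(ShghT.LS κ μ q).smul_mem c hf.1,
    fun i j h h' => by rw [coeff_smul, hf.2 i j h h', smul_zero]⟩

/-- SPLIT. PROOF. `w(e) = 2 ((d + 1) (e 0 + e 1) + e 0)`, `G = 2 ((d + 1) κ + ρ)`,
`α(e) = G - 1 - w(e)`, `β(e) = w(e) + 1 - G` (truncated), so `α + w + 1 = G + β`, and for `e` of degree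
`≤ d`: `Low(e) ↔ w(e) < G ↔ β(e) = 0 ↔ 1 ≤ α(e)`. Matrix over `K[X]` with the rows of `μ` and of `ν`:
`M (inl r) e = X ^ α(e) C (tfM (a_r) e r.2)`, `M (inr r) e = X ^ β(e) C (tfM (q_r) e r.2)`. Apply
`ShghT.semib_rank_le` to `θ : K[X] → RatFunc K` and `θ' =` evaluation at `0`. The linear system over
`RatFunc K` embeds into `ker (M.map θ)` by `f ↦ (e ↦ f_e X ^ (- α(e)))`, and `ker (M.map θ')` embeds
into `FF (LS d μ a) κ ρ × PP κ ρ ν q` by (non-`Low` part, `Low` part). -/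
def S_Split : Prop := ∀ (K : Type u) [Field K] (s s' d κ ρ : ℕ) (μ : Fin s → ℕ) (ν : Fin s' → ℕ)
  (a : Fin s → Fin 2 → K) (q : Fin s' → Fin 2 → K), κ ≤ d → ρ ≤ κ + 1 →
  Module.finrank (RatFunc K) (ShghT.LS d (Fin.append μ ν)
    (Fin.append (fun i c => RatFunc.C (a i c))
      (fun i c => RatFunc.X ^ (if c = 0 then 2 * (d + 2) else 2 * (d + 1)) * RatFunc.C (q i c)))) ≤
    Module.finrank K (FF (ShghT.LS d μ a) κ ρ) + Module.finrank K (PP κ ρ ν q)

/-- DIMP. PROOF. The operator `∇ g = Dc D g + X 0 * pderiv 1 g` preserves `LS κ μ q`: by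
`ShghJ.tDc` `tfShift q (∇ g) = Dc D (tfShift q g) + X 0 * pderiv 1 (tfShift q g)` (because
`D (q i 1) = q i 0`, `D (q i 0) = 0`), and both terms have no coefficients of degree `< μ i` if
`tfShift q g` has none (`ShghE.tf_mem_iff`, `coeff_Dc`); the degree does not grow. Let
`E = {i ≤ κ : some g ∈ LS κ μ q has coefficient ≠ 0 at x^i y^(κ-i) and = 0 at x^i' y^(κ-i') for
all i < i' ≤ κ}`. If `i ∈ E`, `i < κ`, then `i + 1 ∈ E`: the coefficient of `∇ g` at
`x^(i+1) y^(κ-i-1)` is `(κ - i)` times that of `g` at `x^i y^(κ-i)` plus `D` of that of `g` at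
`x^(i+1) y^(κ-i-1)`, which is `0`. `PP κ 0 = LS (κ - 1) μ q`, `PP κ (κ+1) = LS κ μ q`,
`finrank (PP κ (t+1)) = finrank (PP κ t) + (if t ∈ E then 1 else 0)` (kernel of a linear
functional, as in `ShghJ.tCnt`). So if `ρ - 1 ∉ E` or `ρ = 0` then `PP κ ρ = PP κ 0` in dimension; if
`ρ - 1 ∈ E` then `ρ, .., κ ∈ E`, so `finrank LS κ = finrank (PP κ ρ) + (κ + 1 - ρ)`. -/
def S_DimP : Prop := ∀ (K : Type u) [Field K] (D : Derivation ℤ K K) (s κ ρ : ℕ) (μ : Fin s → ℕ)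
  (q : Fin s → Fin 2 → K), (∀ i, D (q i 0) = 0) → (∀ i, D (q i 1) = q i 0) →
  (∀ n : ℕ, 1 ≤ n → n ≤ κ → (n : K) ≠ 0) → 1 ≤ κ → ρ ≤ κ + 1 →
  Module.finrank K (PP κ ρ μ q) ≤ Module.finrank K (ShghT.LS (κ - 1) μ q) ∨
  Module.finrank K (PP κ ρ μ q) + (κ + 1) ≤ Module.finrank K (ShghT.LS κ μ q) + ρ

/-- DIMF. PROOF. The operator `∇ f = Dc D f + X 1 * pderiv 0 f` preserves `V = LS d μ a` (as in
`S_DimP`, now `D (a i 0) = a i 1`, `D (a i 1) = 0`). Let `E = {i ≤ κ : some f ∈ FF V κ 0 has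
coefficient ≠ 0 at x^i y^(κ-i) and = 0 at x^i' y^(κ-i') for all i' < i}`. If `i + 1 ∈ E` then
`i ∈ E`: the coefficient of `∇ f` at `x^i y^(κ-i)` is `(i + 1)` times that of `f` at
`x^(i+1) y^(κ-i-1)` plus `D` of that of `f` at `x^i y^(κ-i)`, which is `0` (and `∇` preserves the
vanishing of the coefficients of degree `< κ`). `FF V κ (κ+1)` and `FF V (κ+1) 0` are equal,
`finrank (FF V κ t) = finrank (FF V κ (t+1)) + (if t ∈ E then 1 else 0)`. If `ρ ∈ E` then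
`0, .., ρ ∈ E`, so `finrank (FF V κ 0) = finrank (FF V κ ρ) + ρ`; if `ρ ∉ E` then no `t ≥ ρ` is in
`E`, so `finrank (FF V κ ρ) = finrank (FF V (κ+1) 0)`. -/
def S_DimF : Prop := ∀ (K : Type u) [Field K] (D : Derivation ℤ K K) (s d κ ρ : ℕ) (μ : Fin s → ℕ)
  (a : Fin s → Fin 2 → K), (∀ i, D (a i 0) = a i 1) → (∀ i, D (a i 1) = 0) →
  (∀ n : ℕ, 1 ≤ n → n ≤ κ → (n : K) ≠ 0) →
  Module.finrank K (FF (ShghT.LS d μ a) κ ρ) ≤ Module.finrank K (FF (ShghT.LS d μ a) (κ + 1) 0) ∨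
  Module.finrank K (FF (ShghT.LS d μ a) κ ρ) + ρ ≤ Module.finrank K (FF (ShghT.LS d μ a) κ 0)

/-- TR. PROOF. `f ↦ tfShift (p 0) (p 1) f` is a linear bijection with inverse
`tfShift (- p 0) (- p 1)`; it preserves the total degree, and
`tfShift (P i 0 - p 0) (P i 1 - p 1) (tfShift (p 0) (p 1) f) = tfShift (P i 0) (P i 1) f`; use
`ShghE.tf_mem_iff`. -/
def S_Tr : Prop := ∀ (K : Type u) [Field K] (s d j : ℕ) (μ : Fin s → ℕ) (P : Fin s → Fin 2 → K)
  (p : Fin 2 → K),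
  Module.finrank K (fil (ShghT.LS d μ P) p j) =
    Module.finrank K (FF (ShghT.LS d μ (fun i c => P i c - p c)) j 0)

/-- CM: the inequality of the degeneration. PROOF. `S_Split` with `K = UF F`, `a_i = up (i+1) - up 0`,
`q_i = up i`, `ρ = hF F d (κ ::ₘ A) - hF F d ((κ + 1) ::ₘ A)`, and the other statements. -/
def S_CM : Prop := ∀ (F : Type u) [Field F] (d κ : ℕ) (A B : Multiset ℕ),
  (∀ n : ℕ, 1 ≤ n → n ≤ d → (n : F) ≠ 0) → 1 ≤ κ → κ ≤ d →
  hF F d (A + B) ≤ hF F (κ - 1) B + hF F d ((κ + 1) ::ₘ A) ∨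
  hF F d (A + B) + (κ + 1) ≤ hF F κ B + hF F d (κ ::ₘ A)

/-- The same for a family `h` of functions (`h d` = the function of the degree `d`). -/
def CMFun (h : ℕ → Multiset ℕ → ℕ) (D : ℕ) : Prop := ∀ (d κ : ℕ) (A B : Multiset ℕ),
  d ≤ D → 1 ≤ κ → κ ≤ d →
  h d (A + B) ≤ h (κ - 1) B + h d ((κ + 1) ::ₘ A) ∨
  h d (A + B) + (κ + 1) ≤ h κ B + h d (κ ::ₘ A)

end ShghL
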