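import Pool.Agent.ShghL.Spec

/-!
# ShghL/Split: the degeneration
-/

namespace ShghL

open MvPolynomial ShghJ

universe u v

section scale

variable {R : Type*} [CommRing R]

/-- The scaling of the coordinates. -/
noncomputable def spS (α β : R) : MvPolynomial (Fin 2) R →ₐ[R] MvPolynomial (Fin 2) R :=
  aeval ![C α * X 0, C β * X 1]

theorem spS_X0 (α β : R) : spS α β (X 0) = C α * X 0 := by simp [spS]

theorem spS_X1 (α β : R) : spS α β (X 1) = C β * X 1 := by simp [spS]

theorem spS_C (α β c : R) : spS α β (C c) = C c := by simp [spS]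

theorem sp_mono (e : Fin 2 →₀ ℕ) (c : R) :
    (monomial e c : MvPolynomial (Fin 2) R) = C c * (X 0 ^ e 0 * X 1 ^ e 1) := by
  rw [monomial_eq, Finsupp.prod_fintype _ _ (fun i => pow_zero _), Fin.prod_univ_two]

theorem spS_monomial (α β : R) (e : Fin 2 →₀ ℕ) (c : R) :
    spS α β (monomial e c) = monomial e (α ^ e 0 * β ^ e 1 * c) := by
  rw [sp_mono, sp_mono, map_mul, map_mul, map_pow, map_pow, spS_X0, spS_X1, spS_C]
  simp only [map_mul, map_pow, mul_pow]
  ring

theorem spS_coeff (α β : R) (f : MvPolynomial (Fin 2) R) (x : Fin 2 →₀ ℕ) :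
    (spS α β f).coeff x = α ^ x 0 * β ^ x 1 * f.coeff x := by
  classical
  induction f using MvPolynomial.induction_on' with
  | monomial e c =>
    rw [spS_monomial, coeff_monomial, coeff_monomial]
    split_ifs with h
    · rw [h]
    · rw [mul_zero]
  | add p q hp hq => rw [map_add, coeff_add, coeff_add, hp, hq, mul_add]

theorem spS_shift (α β a b : R) (f : MvPolynomial (Fin 2) R) :
    spS α β (ShghE.tfShift (α * a) (β * b) f) = ShghE.tfShift a b (spS α β f) := by
  have h : (spS α β).comp (ShghE.tfShift (α * a) (β * b)) =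
      (ShghE.tfShift a b).comp (spS α β) := by
    apply MvPolynomial.algHom_ext
    intro i
    fin_cases i
    · change spS α β (ShghE.tfShift _ _ (X 0)) = ShghE.tfShift _ _ (spS α β (X 0))
      simp only [ShghE.tfShift_X0, map_add, spS_X0, spS_C, map_mul, ShghE.tfShift_C]
      ring
    · change spS α β (ShghE.tfShift _ _ (X 1)) = ShghE.tfShift _ _ (spS α β (X 1))
      simp only [ShghE.tfShift_X1, map_add, spS_X1, spS_C, map_mul, ShghE.tfShift_C]
      ring
  exact DFunLike.congr_fun h f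

theorem sp_tfM (α β a b : R) (e x : Fin 2 →₀ ℕ) :
    α ^ x 0 * β ^ x 1 * ShghE.tfM (α * a) (β * b) e x =
      α ^ e 0 * β ^ e 1 * ShghE.tfM a b e x := by
  unfold ShghE.tfM
  rw [← spS_coeff, spS_shift, spS_monomial, mul_one]
  have h : (monomial e (α ^ e 0 * β ^ e 1) : MvPolynomial (Fin 2) R) =
      (α ^ e 0 * β ^ e 1) • monomial e 1 := by
    rw [smul_monomial, smul_eq_mul, mul_one]
  rw [h, map_smul, coeff_smul, smul_eq_mul]

end scale

/-- The weight of the exponent `e`. -/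
def spw (d : ℕ) (e : Fin 2 →₀ ℕ) : ℕ := 2 * ((d + 1) * (e 0 + e 1) + e 0)

/-- The threshold. -/
def spG (d κ ρ : ℕ) : ℕ := 2 * ((d + 1) * κ + ρ)

theorem sp_degree (e : Fin 2 →₀ ℕ) : e.degree = e 0 + e 1 := by
  rw [Finsupp.degree_eq_sum, Fin.sum_univ_two]

theorem sp_ex (e : Fin 2 →₀ ℕ) : ex (e 0) (e 1) = e := by
  ext i
  fin_cases i <;> simp [ex]

theorem ex_zero (i j : ℕ) : (ex i j) 0 = i := by simp [ex]

theorem ex_one (i j : ℕ) : (ex i j) 1 = j := by simp [ex]

theorem ex_degree (i j : ℕ) : (ex i j).degree = i + j := by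
  rw [sp_degree, ex_zero, ex_one]

theorem sp_low_iff {d κ ρ : ℕ} (hρ : ρ ≤ κ + 1) (hκ : κ ≤ d) (e : Fin 2 →₀ ℕ)
    (he : e.degree ≤ d) :
    spw d e < spG d κ ρ ↔ (e 0 + e 1 < κ ∨ (e 0 + e 1 = κ ∧ e 0 < ρ)) := by
  unfold spw spG
  rw [sp_degree] at he
  constructor
  · intro h
    rcases Nat.lt_trichotomy (e 0 + e 1) κ with h1 | h1 | h1
    · exact Or.inl h1
    · right
      refine ⟨h1, ?_⟩
      rw [h1] at h
      omega
    · exfalso
      have h2 : (d + 1) * (κ + 1) ≤ (d + 1) * (e 0 + e 1) := Nat.mul_le_mul_left _ h1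
      have h3 : (d + 1) * (κ + 1) = (d + 1) * κ + (d + 1) := by ring
      omega
  · rintro (h | ⟨h, h'⟩)
    · have h2 : (d + 1) * (e 0 + e 1 + 1) ≤ (d + 1) * κ := Nat.mul_le_mul_left _ h
      have h3 : (d + 1) * (e 0 + e 1 + 1) = (d + 1) * (e 0 + e 1) + (d + 1) := by ring
      omega
    · rw [h]
      omega

/-- The exponent `α`. -/
def spa (d κ ρ : ℕ) (e : Fin 2 →₀ ℕ) : ℕ := spG d κ ρ - 1 - spw d e

/-- The exponent `β`. -/
def spb (d κ ρ : ℕ) (e : Fin 2 →₀ ℕ) : ℕ := spw d e + 1 - spG d κ ρ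

theorem spa_eq_zero_iff {d κ ρ : ℕ} (e : Fin 2 →₀ ℕ) :
    spa d κ ρ e = 0 ↔ ¬ spw d e < spG d κ ρ := by
  unfold spa spw spG
  omega

theorem spb_eq_zero_iff {d κ ρ : ℕ} (e : Fin 2 →₀ ℕ) :
    spb d κ ρ e = 0 ↔ spw d e < spG d κ ρ := by
  unfold spb spw spG
  omega

theorem sp_ab {d κ ρ : ℕ} (e : Fin 2 →₀ ℕ) :
    spG d κ ρ + spb d κ ρ e = spa d κ ρ e + spw d e + 1 := by
  unfold spb spa
  omega

section main

variable {K : Type u} [Field K] {s s' : ℕ}

/-- The matrix over `K[X]`. -/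
noncomputable def spM (d κ ρ : ℕ) (μ : Fin s → ℕ) (ν : Fin s' → ℕ) (a : Fin s → Fin 2 → K)
    (q : Fin s' → Fin 2 → K) :
    Matrix (ShghE.tfRow μ ⊕ ShghE.tfRow ν) (ShghE.tfS d) (Polynomial K) :=
  fun r e => Sum.elim
    (fun r => Polynomial.X ^ spa d κ ρ e * Polynomial.C (ShghE.tfM (a r.1 0) (a r.1 1) e r.2))
    (fun r => Polynomial.X ^ spb d κ ρ e * Polynomial.C (ShghE.tfM (q r.1 0) (q r.1 1) e r.2)) r

theorem sp_ker_rank {k ι ρ' : Type*} [Field k] [Fintype ι] [Finite ρ'] (N : Matrix ρ' ι k) :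
    Module.finrank k (LinearMap.ker N.mulVecLin) + N.rank = Fintype.card ι := by
  rw [Matrix.rank, add_comm, LinearMap.finrank_range_add_finrank_ker,
    Module.finrank_fintype_fun_eq_card]

/-- The points over `K(t)`. -/
noncomputable def spP (d : ℕ) (a : Fin s → Fin 2 → K) (q : Fin s' → Fin 2 → K) :
    Fin (s + s') → Fin 2 → RatFunc K :=
  Fin.append (fun i c => RatFunc.C (a i c))
      (fun i c => RatFunc.X ^ (if c = 0 then 2 * (d + 2) else 2 * (d + 1)) * RatFunc.C (q i c))

theorem sp_claimA (d κ ρ : ℕ) (μ : Fin s → ℕ) (ν : Fin s' → ℕ) (a : Fin s → Fin 2 → K)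
    (q : Fin s' → Fin 2 → K) :
    Module.finrank (RatFunc K) (ShghT.LS d (Fin.append μ ν) (spP d a q)) ≤
      Module.finrank (RatFunc K) (LinearMap.ker ((spM d κ ρ μ ν a q).map
        (algebraMap (Polynomial K) (RatFunc K))).mulVecLin) := by
  classical
  have hX : (RatFunc.X : RatFunc K) ≠ 0 := RatFunc.X_ne_zero
  let ψ : ShghT.LS d (Fin.append μ ν) (spP d a q) →ₗ[RatFunc K] (ShghE.tfS d → RatFunc K) :=
    { toFun := fun f e => (f : MvPolynomial (Fin 2) (RatFunc K)).coeff e *
        (RatFunc.X ^ spa d κ ρ e)⁻¹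
      map_add' := fun f g => by
        ext e
        simp [add_mul]
      map_smul' := fun c f => by
        ext e
        simp [mul_assoc] }
  have hinj : LinearMap.ker ψ = ⊥ := by
    rw [LinearMap.ker_eq_bot']
    intro f hf
    apply Subtype.ext
    have hd : (f : MvPolynomial (Fin 2) (RatFunc K)).totalDegree ≤ d := (ShghT.mem_LS.1 f.2).1
    rw [ShghE.tf_expand hd]
    refine Finset.sum_eq_zero fun e _ => ?_
    have h1 : (f : MvPolynomial (Fin 2) (RatFunc K)).coeff e *
        (RatFunc.X ^ spa d κ ρ e)⁻¹ = 0 := congrFun hf e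
    have h2 : (f : MvPolynomial (Fin 2) (RatFunc K)).coeff e = 0 := by
      rcases mul_eq_zero.1 h1 with h | h
      · exact h
      · exact absurd h (inv_ne_zero (pow_ne_zero _ hX))
    rw [h2, monomial_zero]
  have hrange : LinearMap.range ψ ≤ LinearMap.ker ((spM d κ ρ μ ν a q).map
        (algebraMap (Polynomial K) (RatFunc K))).mulVecLin := by
    rintro _ ⟨f, rfl⟩
    have hd : (f : MvPolynomial (Fin 2) (RatFunc K)).totalDegree ≤ d := (ShghT.mem_LS.1 f.2).1
    have hrow : ∀ (i : Fin (s + s')) (x : Fin 2 →₀ ℕ), x.degree < Fin.append μ ν i →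
        ∑ e : ShghE.tfS d, ShghE.tfM (spP d a q i 0) (spP d a q i 1) e x *
          (f : MvPolynomial (Fin 2) (RatFunc K)).coeff e = 0 := by
      intro i x hx
      have h1 := (ShghE.tf_mem_iff _ _ _ _).1 ((ShghT.mem_LS.1 f.2).2 i) x hx
      rw [ShghE.tf_expand hd, ShghE.tf_coeff] at h1
      exact h1
    rw [LinearMap.mem_ker]
    ext r
    rcases r with ⟨i, x, hx⟩ | ⟨i, x, hx⟩
    · have h1 := hrow (Fin.castAdd s' i) x (by
        rw [Fin.append_left]
        simpa using hx)
      have e0 : ∀ c, spP d a q (Fin.castAdd s' i) c = algebraMap K (RatFunc K) (a i c) := by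
        intro c
        unfold spP
        rw [Fin.append_left]
        rfl
      rw [e0, e0] at h1
      have h2 : ((spM d κ ρ μ ν a q).map (algebraMap (Polynomial K) (RatFunc K))).mulVecLin
          (ψ f) (Sum.inl ⟨i, x, hx⟩) =
        ∑ e : ShghE.tfS d, (algebraMap (Polynomial K) (RatFunc K)
          (Polynomial.X ^ spa d κ ρ e * Polynomial.C (ShghE.tfM (a i 0) (a i 1) e x))) *
          ((f : MvPolynomial (Fin 2) (RatFunc K)).coeff e * (RatFunc.X ^ spa d κ ρ e)⁻¹) := rfl
      rw [h2, Pi.zero_apply, ← h1]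
      refine Finset.sum_congr rfl fun e _ => ?_
      have h3 : ShghE.tfM (algebraMap K (RatFunc K) (a i 0)) (algebraMap K (RatFunc K) (a i 1))
          (e : Fin 2 →₀ ℕ) x = algebraMap K (RatFunc K) (ShghE.tfM (a i 0) (a i 1) e x) :=
        ShghE.tfM_map (algebraMap K (RatFunc K)) _ _ _ _
      rw [h3, map_mul, map_pow, RatFunc.algebraMap_X, RatFunc.algebraMap_C]
      have h4 : algebraMap K (RatFunc K) (ShghE.tfM (a i 0) (a i 1) e x) =
          RatFunc.C (ShghE.tfM (a i 0) (a i 1) e x) := rfl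
      rw [h4]
      field_simp
    · have h1 := hrow (Fin.natAdd s i) x (by
        rw [Fin.append_right]
        simpa using hx)
      have e0 : spP d a q (Fin.natAdd s i) 0 =
          RatFunc.X ^ (2 * (d + 2)) * algebraMap K (RatFunc K) (q i 0) := by
        unfold spP
        rw [Fin.append_right]
        rfl
      have e1 : spP d a q (Fin.natAdd s i) 1 =
          RatFunc.X ^ (2 * (d + 1)) * algebraMap K (RatFunc K) (q i 1) := by
        unfold spP
        rw [Fin.append_right]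
        rfl
      rw [e0, e1] at h1
      have h2 : ((spM d κ ρ μ ν a q).map (algebraMap (Polynomial K) (RatFunc K))).mulVecLin
          (ψ f) (Sum.inr ⟨i, x, hx⟩) =
        ∑ e : ShghE.tfS d, (algebraMap (Polynomial K) (RatFunc K)
          (Polynomial.X ^ spb d κ ρ e * Polynomial.C (ShghE.tfM (q i 0) (q i 1) e x))) *
          ((f : MvPolynomial (Fin 2) (RatFunc K)).coeff e * (RatFunc.X ^ spa d κ ρ e)⁻¹) := rfl
      rw [h2, Pi.zero_apply]
      have hne : (RatFunc.X : RatFunc K) ^ spG d κ ρ ≠ 0 := pow_ne_zero _ hX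
      apply (mul_eq_zero.1 _).resolve_left hne
      rw [Finset.mul_sum]
      have h5 : ∀ e : ShghE.tfS d, RatFunc.X ^ spG d κ ρ *
          ((algebraMap (Polynomial K) (RatFunc K)
          (Polynomial.X ^ spb d κ ρ e * Polynomial.C (ShghE.tfM (q i 0) (q i 1) e x))) *
          ((f : MvPolynomial (Fin 2) (RatFunc K)).coeff e * (RatFunc.X ^ spa d κ ρ e)⁻¹)) =
          RatFunc.X * ((RatFunc.X ^ (2 * (d + 2))) ^ x 0 * (RatFunc.X ^ (2 * (d + 1))) ^ x 1) *
          (ShghE.tfM (RatFunc.X ^ (2 * (d + 2)) * algebraMap K (RatFunc K) (q i 0))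
            (RatFunc.X ^ (2 * (d + 1)) * algebraMap K (RatFunc K) (q i 1)) e x *
          (f : MvPolynomial (Fin 2) (RatFunc K)).coeff e) := by
        intro e
        have h6 := sp_tfM (RatFunc.X ^ (2 * (d + 2)) : RatFunc K) (RatFunc.X ^ (2 * (d + 1)))
          (algebraMap K (RatFunc K) (q i 0)) (algebraMap K (RatFunc K) (q i 1)) e x
        have h7 : RatFunc.X * ((RatFunc.X ^ (2 * (d + 2))) ^ x 0 *
            (RatFunc.X ^ (2 * (d + 1))) ^ x 1) *
          (ShghE.tfM (RatFunc.X ^ (2 * (d + 2)) * algebraMap K (RatFunc K) (q i 0))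
            (RatFunc.X ^ (2 * (d + 1)) * algebraMap K (RatFunc K) (q i 1)) e x *
          (f : MvPolynomial (Fin 2) (RatFunc K)).coeff e) =
          RatFunc.X * ((RatFunc.X ^ (2 * (d + 2))) ^ (e : Fin 2 →₀ ℕ) 0 *
            (RatFunc.X ^ (2 * (d + 1))) ^ (e : Fin 2 →₀ ℕ) 1 *
            ShghE.tfM (algebraMap K (RatFunc K) (q i 0)) (algebraMap K (RatFunc K) (q i 1)) e x) *
            (f : MvPolynomial (Fin 2) (RatFunc K)).coeff e := by
          rw [← h6]
          ring
        rw [h7]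
        have h3 : ShghE.tfM (algebraMap K (RatFunc K) (q i 0)) (algebraMap K (RatFunc K) (q i 1))
            (e : Fin 2 →₀ ℕ) x = algebraMap K (RatFunc K) (ShghE.tfM (q i 0) (q i 1) e x) :=
          ShghE.tfM_map (algebraMap K (RatFunc K)) _ _ _ _
        have h4 : algebraMap K (RatFunc K) (ShghE.tfM (q i 0) (q i 1) e x) =
            RatFunc.C (ShghE.tfM (q i 0) (q i 1) e x) := rfl
        rw [h3, h4, map_mul, map_pow, RatFunc.algebraMap_X, RatFunc.algebraMap_C]
        have h8 : (RatFunc.X : RatFunc K) ^ spG d κ ρ * RatFunc.X ^ spb d κ ρ e =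
            RatFunc.X ^ spa d κ ρ e * (RatFunc.X * ((RatFunc.X ^ (2 * (d + 2))) ^ (e : Fin 2 →₀ ℕ) 0 *
            (RatFunc.X ^ (2 * (d + 1))) ^ (e : Fin 2 →₀ ℕ) 1)) := by
          rw [← pow_add, sp_ab, ← pow_mul, ← pow_mul]
          unfold spw
          ring
        have hne' : (RatFunc.X : RatFunc K) ^ spa d κ ρ e ≠ 0 := pow_ne_zero _ hX
        calc RatFunc.X ^ spG d κ ρ * (RatFunc.X ^ spb d κ ρ e *
              RatFunc.C (ShghE.tfM (q i 0) (q i 1) e x) *
              ((f : MvPolynomial (Fin 2) (RatFunc K)).coeff e * (RatFunc.X ^ spa d κ ρ e)⁻¹))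
            = (RatFunc.X ^ spG d κ ρ * RatFunc.X ^ spb d κ ρ e) *
              (RatFunc.C (ShghE.tfM (q i 0) (q i 1) e x) *
              (f : MvPolynomial (Fin 2) (RatFunc K)).coeff e) * (RatFunc.X ^ spa d κ ρ e)⁻¹ := by
              ring
          _ = _ := by
              rw [h8]
              field_simp
      rw [Finset.sum_congr rfl fun e _ => h5 e, ← Finset.mul_sum, h1, mul_zero]
  calc Module.finrank (RatFunc K) (ShghT.LS d (Fin.append μ ν) (spP d a q))
      = Module.finrank (RatFunc K) (LinearMap.range ψ) :=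
        (LinearMap.finrank_range_of_inj (LinearMap.ker_eq_bot.1 hinj)).symm
    _ ≤ _ := Submodule.finrank_mono hrange

/-- A part of the polynomial with the coefficients `c`. -/
noncomputable def spPart (d : ℕ) (b : (Fin 2 →₀ ℕ) → Prop) [DecidablePred b] :
    (ShghE.tfS d → K) →ₗ[K] MvPolynomial (Fin 2) K where
  toFun c := ∑ e : ShghE.tfS d, monomial (e : Fin 2 →₀ ℕ) (if b e then c e else 0)
  map_add' c c' := by
    rw [← Finset.sum_add_distrib]
    refine Finset.sum_congr rfl fun e _ => ?_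
    rw [← map_add]
    congr 1
    split_ifs
    · rfl
    · rw [add_zero]
  map_smul' r c := by
    rw [RingHom.id_apply, Finset.smul_sum]
    refine Finset.sum_congr rfl fun e _ => ?_
    rw [smul_monomial]
    congr 1
    split_ifs
    · rfl
    · rw [smul_zero]

theorem spPart_coeff (d : ℕ) (b : (Fin 2 →₀ ℕ) → Prop) [DecidablePred b] (c : ShghE.tfS d → K)
    (e : ShghE.tfS d) : (spPart d b c).coeff e = if b e then c e else 0 :=
  ShghE.tf_sum_coeff (fun e : ShghE.tfS d => if b e then c e else 0) e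

theorem spPart_degree (d : ℕ) (b : (Fin 2 →₀ ℕ) → Prop) [DecidablePred b] (c : ShghE.tfS d → K) :
    (spPart d b c).totalDegree ≤ d :=
  ShghE.tf_sum_degree (fun e : ShghE.tfS d => if b e then c e else 0)

theorem spPart_coeff' (d : ℕ) (b : (Fin 2 →₀ ℕ) → Prop) [DecidablePred b] (c : ShghE.tfS d → K)
    (e : Fin 2 →₀ ℕ) (he : ¬ b e) : (spPart d b c).coeff e = 0 := by
  by_cases h : e ∈ ShghE.tfS d
  · have := spPart_coeff d b c ⟨e, h⟩
    rw [if_neg he] at this
    exact this
  · by_contra hcon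
    apply h
    rw [ShghE.mem_tfS]
    exact ShghE.tf_totalDegree_le.1 (spPart_degree d b c) e (mem_support_iff.2 hcon)

theorem spPart_mem (d : ℕ) (b : (Fin 2 →₀ ℕ) → Prop) [DecidablePred b] (c : ShghE.tfS d → K)
    (μ : Fin s → ℕ) (a : Fin s → Fin 2 → K)
    (h : ∀ (i : Fin s) (x : Fin 2 →₀ ℕ), x.degree < μ i → ∑ e : ShghE.tfS d,
      ShghE.tfM (a i 0) (a i 1) e x * (if b e then c e else 0) = 0) :
    spPart d b c ∈ ShghT.LS d μ a := by
  rw [ShghT.mem_LS]
  refine ⟨spPart_degree d b c, fun i => ?_⟩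
  refine (ShghE.tf_mem_iff _ _ _ _).2 fun x hx => ?_
  have := h i x hx
  rw [← ShghE.tf_coeff (a i 0) (a i 1) (fun e : ShghE.tfS d => (e : Fin 2 →₀ ℕ))] at this
  exact this

theorem sp_claimB {d κ ρ : ℕ} (hκ : κ ≤ d) (hρ : ρ ≤ κ + 1) (μ : Fin s → ℕ) (ν : Fin s' → ℕ)
    (a : Fin s → Fin 2 → K) (q : Fin s' → Fin 2 → K) :
    Module.finrank K (LinearMap.ker ((spM d κ ρ μ ν a q).map
        (Polynomial.evalRingHom (0 : K))).mulVecLin) ≤
      Module.finrank K (FF (ShghT.LS d μ a) κ ρ) + Module.finrank K (PP κ ρ ν q) := by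
  classical
  let N := ((spM d κ ρ μ ν a q).map (Polynomial.evalRingHom (0 : K)))
  let bl : (Fin 2 →₀ ℕ) → Prop := fun e => spw d e < spG d κ ρ
  let bh : (Fin 2 →₀ ℕ) → Prop := fun e => ¬ spw d e < spG d κ ρ
  have hev : ∀ (n : ℕ) (c : K), Polynomial.evalRingHom (0 : K) (Polynomial.X ^ n * Polynomial.C c) =
      if n = 0 then c else 0 := by
    intro n c
    rw [map_mul, map_pow, Polynomial.coe_evalRingHom, Polynomial.eval_X, Polynomial.eval_C]
    split_ifs with h
    · rw [h, pow_zero, one_mul]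
    · rw [zero_pow h, zero_mul]
  have h1 : ∀ c ∈ LinearMap.ker N.mulVecLin, spPart d bh c ∈ ShghT.LS d μ a := by
    intro c hc
    apply spPart_mem
    intro i x hx
    rw [LinearMap.mem_ker] at hc
    have h2 := congrFun hc (Sum.inl ⟨i, x, by simpa using hx⟩)
    have h3 : N.mulVecLin c (Sum.inl ⟨i, x, by simpa using hx⟩) = ∑ e : ShghE.tfS d,
        (Polynomial.evalRingHom (0 : K) (Polynomial.X ^ spa d κ ρ e *
          Polynomial.C (ShghE.tfM (a i 0) (a i 1) e x))) * c e := rfl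
    rw [h3, Pi.zero_apply] at h2
    refine (Finset.sum_congr rfl fun e _ => ?_).trans h2
    rw [hev]
    by_cases h4 : spa d κ ρ e = 0
    · rw [if_pos h4, if_pos ((spa_eq_zero_iff _).1 h4)]
    · rw [if_neg h4, if_neg (fun h5 => h4 ((spa_eq_zero_iff _).2 h5)), mul_zero, zero_mul]
  have h1' : ∀ c ∈ LinearMap.ker N.mulVecLin, spPart d bl c ∈ ShghT.LS d ν q := by
    intro c hc
    apply spPart_mem
    intro i x hx
    rw [LinearMap.mem_ker] at hc
    have h2 := congrFun hc (Sum.inr ⟨i, x, by simpa using hx⟩)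
    have h3 : N.mulVecLin c (Sum.inr ⟨i, x, by simpa using hx⟩) = ∑ e : ShghE.tfS d,
        (Polynomial.evalRingHom (0 : K) (Polynomial.X ^ spb d κ ρ e *
          Polynomial.C (ShghE.tfM (q i 0) (q i 1) e x))) * c e := rfl
    rw [h3, Pi.zero_apply] at h2
    refine (Finset.sum_congr rfl fun e _ => ?_).trans h2
    rw [hev]
    by_cases h4 : spb d κ ρ e = 0
    · rw [if_pos h4, if_pos ((spb_eq_zero_iff _).1 h4)]
    · rw [if_neg h4, if_neg (fun h5 => h4 ((spb_eq_zero_iff _).2 h5)), mul_zero, zero_mul]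
  have hF : ∀ c ∈ LinearMap.ker N.mulVecLin, spPart d bh c ∈ FF (ShghT.LS d μ a) κ ρ := by
    intro c hc
    refine ⟨h1 c hc, fun i j hij => ?_, fun i j hij hi => ?_⟩
    · apply spPart_coeff'
      have := (sp_low_iff hρ hκ (ex i j) (by rw [ex_degree]; omega)).2
        (Or.inl (by rw [ex_zero, ex_one]; exact hij))
      exact fun h => h this
    · apply spPart_coeff'
      have := (sp_low_iff hρ hκ (ex i j) (by rw [ex_degree]; omega)).2
        (Or.inr (by rw [ex_zero, ex_one]; exact ⟨hij, hi⟩))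
      exact fun h => h this
  have hP : ∀ c ∈ LinearMap.ker N.mulVecLin, spPart d bl c ∈ PP κ ρ ν q := by
    intro c hc
    have hm := ShghT.mem_LS.1 (h1' c hc)
    have hdeg : ∀ e : Fin 2 →₀ ℕ, e.degree ≤ d → bl e → e.degree ≤ κ := by
      intro e he hb
      have := (sp_low_iff hρ hκ e he).1 hb
      rw [sp_degree]
      omega
    refine ⟨ShghT.mem_LS.2 ⟨?_, hm.2⟩, fun i j hij hi => ?_⟩
    · rw [ShghE.tf_totalDegree_le]
      intro e he
      have he' : e.degree ≤ d := ShghE.tf_totalDegree_le.1 hm.1 e he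
      apply hdeg e he'
      by_contra hb
      exact (mem_support_iff.1 he) (spPart_coeff' d bl c e hb)
    · apply spPart_coeff'
      intro hb
      have := (sp_low_iff hρ hκ (ex i j) (by rw [ex_degree]; omega)).1 hb
      rw [ex_zero, ex_one] at this
      omega
  let Ψ : LinearMap.ker N.mulVecLin →ₗ[K] (FF (ShghT.LS d μ a) κ ρ) × (PP κ ρ ν q) :=
    LinearMap.prod
      (((spPart d bh).domRestrict _).codRestrict _ (fun c => hF c c.2))
      (((spPart d bl).domRestrict _).codRestrict _ (fun c => hP c c.2))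
  have hinj : Function.Injective Ψ := by
    rw [injective_iff_map_eq_zero]
    intro c hc
    apply Subtype.ext
    funext e
    have hc1 : spPart d bh (c : ShghE.tfS d → K) = 0 :=
      congrArg Subtype.val (congrArg Prod.fst hc)
    have hc2 : spPart d bl (c : ShghE.tfS d → K) = 0 :=
      congrArg Subtype.val (congrArg Prod.snd hc)
    by_cases hb : bl e
    · have h2 := spPart_coeff d bl (c : ShghE.tfS d → K) e
      rw [hc2, coeff_zero, if_pos hb] at h2
      exact h2.symm
    · have h2 := spPart_coeff d bh (c : ShghE.tfS d → K) e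
      rw [hc1, coeff_zero, if_pos hb] at h2
      exact h2.symm
  have hfF : Module.Finite K (FF (ShghT.LS d μ a) κ ρ) :=
    Submodule.finiteDimensional_of_le (S₂ := ShghT.LS d μ a) (fun f hf => hf.1)
  have hfP : Module.Finite K (PP κ ρ ν q) :=
    Submodule.finiteDimensional_of_le (S₂ := ShghT.LS κ ν q) (fun f hf => hf.1)
  have h9 := LinearMap.finrank_le_finrank_of_injective hinj
  rw [Module.finrank_prod] at h9
  exact h9

theorem tSplit : S_Split.{u} := by
  intro K _ s s' d κ ρ μ ν a q hκ hρ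
  change Module.finrank (RatFunc K) (ShghT.LS d (Fin.append μ ν) (spP d a q)) ≤ _
  have hA := sp_claimA d κ ρ μ ν a q
  have hB := sp_claimB hκ hρ μ ν a q
  have key := ShghT.semib_rank_le (spM d κ ρ μ ν a q) (algebraMap (Polynomial K) (RatFunc K))
    (RatFunc.algebraMap_injective K) (Polynomial.evalRingHom (0 : K))
  have e1 := sp_ker_rank ((spM d κ ρ μ ν a q).map (algebraMap (Polynomial K) (RatFunc K)))
  have e2 := sp_ker_rank ((spM d κ ρ μ ν a q).map (Polynomial.evalRingHom (0 : K)))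
  omega

end main

end ShghL
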